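import Mathlib

/-!
Binary forms adapted to a chain of exponents.
-/

set_option autoImplicit false

open MvPolynomial Finset

namespace Pool.Agent.H85.V

variable {K : Type} [Field K]

/-- the linear form vanishing at the point `a` -/
noncomputable def ln (a : Fin 2 → K) : MvPolynomial (Fin 2) K := C (a 0) * X 1 - C (a 1) * X 0

lemma ln_hom (a : Fin 2 → K) : (ln a).IsHomogeneous 1 := by
  have h1 : (C (a 0) * X 1 : MvPolynomial (Fin 2) K).IsHomogeneous (0 + 1) :=
    (isHomogeneous_C _ _).mul (isHomogeneous_X _ _)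
  have h2 : (C (a 1) * X 0 : MvPolynomial (Fin 2) K).IsHomogeneous (0 + 1) :=
    (isHomogeneous_C _ _).mul (isHomogeneous_X _ _)
  exact h1.sub h2

lemma eval_ln (a x : Fin 2 → K) : eval x (ln a) = a 0 * x 1 - a 1 * x 0 := by
  simp [ln]

lemma aeval_ln {L : Type} [Field L] [Algebra K L] (a : Fin 2 → K) (x : Fin 2 → L) :
    aeval x (ln a) = algebraMap K L (a 0) * x 1 - algebraMap K L (a 1) * x 0 := by
  simp [ln]

/-- the form of degree `M` with exponents `e` -/
noncomputable def fo {q : ℕ} (α : Fin q → Fin 2 → K) (m : Fin 2 → K) (M : ℕ) (e : Fin q → ℕ) :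
    MvPolynomial (Fin 2) K := (∏ i, ln (α i) ^ e i) * ln m ^ (M - ∑ i, e i)

lemma fo_hom {q : ℕ} (α : Fin q → Fin 2 → K) (m : Fin 2 → K) (M : ℕ) (e : Fin q → ℕ)
    (he : ∑ i, e i ≤ M) : (fo α m M e).IsHomogeneous M := by
  have h1 : (∏ i, ln (α i) ^ e i : MvPolynomial (Fin 2) K).IsHomogeneous (∑ i, 1 * e i) :=
    IsHomogeneous.prod _ _ _ fun i _ => (ln_hom (α i)).pow (e i)
  have h2 := h1.mul ((ln_hom m).pow (M - ∑ i, e i))
  have h3 : ∑ i, 1 * e i + 1 * (M - ∑ i, e i) = M := by
    simp only [one_mul]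
    omega
  rw [h3] at h2
  exact h2

/-- a triangular family is independent -/
theorem indep_flag {R : Type} [CommRing R] [IsDomain R] [Algebra K R] (n : ℕ) :
    ∀ (a g : ℕ → R) (ev : ℕ → R →ₐ[K] K), (∀ s < n, a s ≠ 0) → (∀ s < n, ev s (a s) = 0) →
      (∀ s ≤ n, ev s (g s) ≠ 0) →
      LinearIndependent K fun s : Fin (n + 1) => (∏ j ∈ Finset.range s, a j) * g s := by
  induction n with
  | zero =>
    intro a g ev ha hev hg
    rw [Fintype.linearIndependent_iff]
    intro c hc i
    have hi : i = 0 := Fin.ext (by omega)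
    subst hi
    rw [Fin.sum_univ_one] at hc
    rcases smul_eq_zero.1 hc with h | h
    · exact h
    · exfalso
      have := hg 0 le_rfl
      apply this
      have h2 : g 0 = 0 := by simpa using h
      rw [h2, map_zero]
  | succ n ih =>
    intro a g ev ha hev hg
    have ih' := ih (fun s => a (s + 1)) (fun s => g (s + 1)) (fun s => ev (s + 1))
      (fun s hs => ha (s + 1) (by omega)) (fun s hs => hev (s + 1) (by omega))
      (fun s hs => hg (s + 1) (by omega))
    rw [Fintype.linearIndependent_iff] at ih' ⊢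
    intro c hc
    have hfac : ∀ s : Fin (n + 1), (∏ j ∈ Finset.range (s.succ : ℕ), a j) * g (s.succ : ℕ) =
        a 0 * ((∏ j ∈ Finset.range (s : ℕ), a (j + 1)) * g ((s : ℕ) + 1)) := by
      intro s
      rw [Fin.val_succ, Finset.prod_range_succ']
      ring
    rw [Fin.sum_univ_succ] at hc
    have hc1 : ∑ s : Fin (n + 1), c s.succ • ((∏ j ∈ Finset.range (s.succ : ℕ), a j) *
        g (s.succ : ℕ)) = a 0 * ∑ s : Fin (n + 1), c s.succ •
          ((∏ j ∈ Finset.range (s : ℕ), a (j + 1)) * g ((s : ℕ) + 1)) := by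
      rw [Finset.mul_sum]
      refine Finset.sum_congr rfl fun s _ => ?_
      rw [hfac, mul_smul_comm]
    rw [hc1] at hc
    have h0 : c 0 = 0 := by
      have h1 := congrArg (ev 0) hc
      rw [map_add, map_mul, hev 0 (by omega), zero_mul, add_zero, map_zero, map_smul] at h1
      have h2 : ev 0 ((∏ j ∈ Finset.range ((0 : Fin (n + 1 + 1)) : ℕ), a j) *
        g ((0 : Fin (n + 1 + 1)) : ℕ)) = ev 0 (g 0) := by simp
      rw [h2, smul_eq_mul] at h1
      exact (mul_eq_zero.1 h1).resolve_right (hg 0 (by omega))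
    rw [h0, zero_smul, zero_add] at hc
    have h3 := (mul_eq_zero.1 hc).resolve_left (ha 0 (by omega))
    have h4 := ih' (fun s => c s.succ) h3
    intro i
    refine Fin.cases h0 (fun j => h4 j) i

/-- the monomials of degree `M` -/
noncomputable def mo (M j : ℕ) : Fin 2 →₀ ℕ := Finsupp.single 0 j + Finsupp.single 1 (M - j)

lemma mo_zero (M j : ℕ) : mo M j 0 = j := by simp [mo]

lemma mo_one (M j : ℕ) : mo M j 1 = M - j := by simp [mo]

lemma mo_degree {M j : ℕ} (h : j ≤ M) : (mo M j).degree = M := by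
  unfold mo
  rw [map_add, Finsupp.degree_single, Finsupp.degree_single]
  omega

lemma eq_mo {M : ℕ} {β : Fin 2 →₀ ℕ} (h : β.degree = M) : β 0 ≤ M ∧ β = mo M (β 0) := by
  have h1 : β 0 + β 1 = M := by
    rw [← h, Finsupp.degree_eq_sum, Fin.sum_univ_two]
  refine ⟨by omega, ?_⟩
  ext i
  fin_cases i
  · simp [mo_zero]
  · simp only [Fin.mk_one, Fin.isValue, mo_one]
    omega

theorem form_eq {M : ℕ} {F : MvPolynomial (Fin 2) K} (hF : F.IsHomogeneous M) :
    F = ∑ j : Fin (M + 1), F.coeff (mo M j) • (monomial (mo M j) 1 : MvPolynomial (Fin 2) K) := by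
  classical
  ext β
  rw [coeff_sum]
  simp only [coeff_smul, coeff_monomial, smul_eq_mul, mul_ite, mul_one, mul_zero]
  by_cases h : β.degree = M
  · obtain ⟨h1, h2⟩ := eq_mo h
    rw [Finset.sum_eq_single (⟨β 0, by omega⟩ : Fin (M + 1))]
    · rw [if_pos h2.symm]
      simp only
      rw [← h2]
    · intro j _ hj
      rw [if_neg]
      intro h3
      apply hj
      apply Fin.ext
      show (j : ℕ) = β 0
      rw [← mo_zero M j, h3]
    · intro h3
      exact absurd (Finset.mem_univ _) h3
  · have h1 : F.coeff β = 0 := by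
      by_contra hne
      apply h
      have := hF hne
      exact (DFunLike.congr_fun (Finsupp.degree_eq_weight_one (σ := Fin 2) (R := ℕ)) β).trans this
    rw [h1]
    symm
    refine Finset.sum_eq_zero fun j _ => ?_
    rw [if_neg]
    intro h3
    apply h
    rw [← h3, mo_degree (by have := j.2; omega)]

/-- the coefficients -/
noncomputable def co (M : ℕ) (F : MvPolynomial (Fin 2) K) (j : Fin (M + 1)) : K := F.coeff (mo M j)

theorem co_indep {M : ℕ} {ι : Type} (F : ι → MvPolynomial (Fin 2) K)
    (hF : ∀ i, (F i).IsHomogeneous M) (h : LinearIndependent K F) :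
    LinearIndependent K fun i => co M (F i) := by
  let T : (Fin (M + 1) → K) →ₗ[K] MvPolynomial (Fin 2) K :=
    Fintype.linearCombination K (fun j : Fin (M + 1) => (monomial (mo M j) 1 : MvPolynomial (Fin 2) K))
  have h1 : (fun i => T (co M (F i))) = F := by
    funext i
    simp only [T, Fintype.linearCombination_apply]
    exact (form_eq (hF i)).symm
  refine LinearIndependent.of_comp T ?_
  have h2 : (⇑T ∘ fun i => co M (F i)) = F := h1
  rw [h2]
  exact h

/-- a nonzero combination of the monomials -/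
theorem comb_ne {M : ℕ} {z : Fin (M + 1) → K} (hz : z ≠ 0) :
    ∑ j, z j • (monomial (mo M j) 1 : MvPolynomial (Fin 2) K) ≠ 0 := by
  classical
  intro h0
  apply hz
  funext i
  have h1 := congrArg (coeff (mo M i)) h0
  rw [coeff_sum] at h1
  simp only [coeff_smul, coeff_monomial, smul_eq_mul, mul_ite, mul_one, mul_zero, coeff_zero] at h1
  rw [Finset.sum_eq_single i] at h1
  · simpa using h1
  · intro j _ hj
    rw [if_neg]
    intro h2
    apply hj
    apply Fin.ext
    rw [← mo_zero M j, h2, mo_zero]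
  · intro h
    exact absurd (Finset.mem_univ _) h

theorem comb_hom {M : ℕ} (z : Fin (M + 1) → K) :
    (∑ j, z j • (monomial (mo M j) 1 : MvPolynomial (Fin 2) K)).IsHomogeneous M := by
  refine IsHomogeneous.sum _ _ _ fun j _ => ?_
  rw [smul_monomial]
  exact isHomogeneous_monomial _ (mo_degree (by have := j.2; omega))

/-- the forms of a chain are independent -/
theorem chain_indep {q : ℕ} (α : Fin q → Fin 2 → K) (m : Fin 2 → K)
    (hm : ∀ i, m 0 * α i 1 - m 1 * α i 0 ≠ 0) (M : ℕ) (i : ℕ → Fin q)
    (e : ℕ → Fin q → ℕ) (he0 : e 0 = 0)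
    (hes : ∀ s, e (s + 1) = Function.update (e s) (i s) (e s (i s) + 1)) :
    (∀ s, ∑ a, e s a = s) ∧
    LinearIndependent K fun s : Fin (M + 1) => fo α m M (e s) := by
  classical
  have hsum : ∀ s, ∑ a, e s a = s := by
    intro s
    induction s with
    | zero => rw [he0]; simp
    | succ s ih =>
      rw [hes, Finset.sum_update_of_mem (Finset.mem_univ _)]
      have h1 := Finset.add_sum_erase Finset.univ (e s) (Finset.mem_univ (i s))
      rw [Finset.sdiff_singleton_eq_erase]
      omega
  refine ⟨hsum, ?_⟩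
  have hprod : ∀ s, ∏ a, ln (α a) ^ e s a = ∏ j ∈ Finset.range s, ln (α (i j)) := by
    intro s
    induction s with
    | zero => rw [he0]; simp
    | succ s ih =>
      rw [Finset.prod_range_succ, ← ih, hes]
      have h1 : ∀ a, ln (α a) ^ (Function.update (e s) (i s) (e s (i s) + 1)) a =
          ln (α a) ^ e s a * if a = i s then ln (α (i s)) else 1 := by
        intro a
        by_cases h : a = i s
        · subst h
          rw [Function.update_self, if_pos rfl, pow_succ]
        · rw [Function.update_of_ne h, if_neg h, mul_one]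
      rw [Finset.prod_congr rfl fun a _ => h1 a, Finset.prod_mul_distrib, Finset.prod_ite_eq',
        if_pos (Finset.mem_univ _)]
  have hfo : (fun s : Fin (M + 1) => fo α m M (e s)) = fun s : Fin (M + 1) =>
      (∏ j ∈ Finset.range s, ln (α (i j))) * ln m ^ (M - (s : ℕ)) := by
    funext s
    unfold fo
    rw [hprod, hsum]
  rw [hfo]
  refine indep_flag (R := MvPolynomial (Fin 2) K) M (fun s => ln (α (i s)))
    (fun s => ln m ^ (M - s)) (fun s => aeval (α (i s))) ?_ ?_ ?_
  · intro s _ h0
    apply hm (i s)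
    have h1 := congrArg (eval m) h0
    rw [eval_ln, map_zero] at h1
    linear_combination (-1 : K) * h1
  · intro s _
    show aeval (α (i s)) (ln (α (i s))) = 0
    rw [aeval_ln]
    simp only [Algebra.algebraMap_self, RingHom.id_apply]
    ring
  · intro s _
    show aeval (α (i s)) (ln m ^ (M - s)) ≠ 0
    rw [map_pow, aeval_ln]
    simp only [Algebra.algebraMap_self, RingHom.id_apply]
    exact pow_ne_zero _ (hm (i s))

/-- a point different from finitely many others -/
theorem exists_aux [Infinite K] {q : ℕ} (α : Fin q → Fin 2 → K) (hα : ∀ i, α i ≠ 0) :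
    ∃ m : Fin 2 → K, ∀ i, m 0 * α i 1 - m 1 * α i 0 ≠ 0 := by
  classical
  obtain ⟨t, ht⟩ := Infinite.exists_notMem_finset
    (Finset.univ.image fun i => α i 1 / α i 0)
  refine ⟨![1, t], fun i h => ?_⟩
  simp only [Matrix.cons_val_zero, Matrix.cons_val_one, one_mul] at h
  by_cases h0 : α i 0 = 0
  · rw [h0, mul_zero, sub_zero] at h
    apply hα i
    funext j
    fin_cases j
    · exact h0
    · exact h
  · apply ht
    rw [Finset.mem_image]
    refine ⟨i, Finset.mem_univ _, ?_⟩
    rw [div_eq_iff h0]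
    linear_combination h

end Pool.Agent.H85.V
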