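import Pool.Agent.H85.V.Comb

/-!
The chain of exponents at one place.
-/

set_option autoImplicit false

open Finset

namespace Pool.Agent.H85.V

theorem chain_place {q : ℕ} (hq : 0 < q) {W : Type} (T : Finset W) (n : W → ℕ) (κ : W → Fin q)
    (Δ : W → ℝ) (hΔ : ∀ w ∈ T, 0 ≤ Δ w) (M : ℕ) :
    ∃ (i : ℕ → Fin q) (e : ℕ → Fin q → ℕ) (g : ℕ → ℝ), e 0 = 0 ∧
      (∀ s, e (s + 1) = Function.update (e s) (i s) (e s (i s) + 1)) ∧ (∀ s, 0 ≤ g s) ∧
      (∀ s, ∀ w ∈ T, M * ∑ w' ∈ T, (if κ w' = κ w then n w' * min (Δ w') (Δ w) else 0) -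
        e s (κ w) * Δ w ≤ g s) ∧
      ∀ m : ℕ, ∑ s ∈ range m, g s ≤ ((M : ℝ) ^ 2 * ∑ w ∈ T, ∑ w' ∈ T,
        (if κ w' = κ w then (n w : ℝ) * n w' * min (Δ w') (Δ w) else 0) +
          M * ∑ w ∈ T, n w * Δ w) / 2 := by
  classical
  set σ : Fin q → Type := fun α => Σ w : {w // w ∈ T.filter fun w => κ w = α}, Fin (M * n w.1)
    with hσ
  have hsum : ∀ (α : Fin q) (F : W → ℝ), ∑ s : σ α, F s.1.1 =
      M * ∑ w ∈ T, if κ w = α then (n w : ℝ) * F w else 0 := by
    intro α F
    have h1 : ∑ s : σ α, F s.1.1 = ∑ w : {w // w ∈ T.filter fun w => κ w = α},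
        ∑ _j : Fin (M * n w.1), F w.1 := Fintype.sum_sigma _
    rw [h1]
    simp only [Finset.sum_const, Finset.card_univ, Fintype.card_fin, nsmul_eq_mul]
    rw [Finset.sum_coe_sort (T.filter fun w => κ w = α) (fun w => ((M * n w : ℕ) : ℝ) * F w),
      Finset.sum_filter, Finset.mul_sum]
    refine Finset.sum_congr rfl fun w _ => ?_
    split_ifs
    · push_cast
      ring
    · ring
  choose f hf0 hf1 hf2 hf3 hf4 using fun α : Fin q => tails (σ := σ α) (fun s => Δ s.1.1)
    (fun s => hΔ _ (Finset.mem_filter.1 s.1.2).1)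
  obtain ⟨i, e, he0, hes, hmax, hgs⟩ := greedy_chain hq f
  refine ⟨i, e, fun s => f (i s) (e s (i s)), he0, hes, fun s => hf0 _ _, fun s w hw => ?_,
    fun m => ?_⟩
  · refine le_trans ?_ (hmax s (κ w))
    refine le_trans (le_of_eq ?_) (hf3 (κ w) (e s (κ w)) (Δ w) (hΔ w hw))
    rw [hsum (κ w) (fun w' => min (Δ w') (Δ w))]
  · rw [hgs]
    have h1 : ∀ α, ∑ a ∈ range (e m α), f α a ≤ ∑ a ∈ range (Fintype.card (σ α)), f α a := by
      intro α
      rcases le_total (e m α) (Fintype.card (σ α)) with h | h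
      · exact Finset.sum_le_sum_of_subset_of_nonneg (Finset.range_mono h) fun a _ _ => hf0 _ _
      · refine le_of_eq ?_
        symm
        refine Finset.sum_subset (Finset.range_mono h) fun a _ ha => ?_
        rw [Finset.mem_range, not_lt] at ha
        exact hf1 _ _ ha
    refine (Finset.sum_le_sum fun α _ => (h1 α).trans (hf4 α)).trans ?_
    rw [← Finset.sum_div]
    refine div_le_div_of_nonneg_right (le_of_eq ?_) (by norm_num)
    rw [Finset.sum_add_distrib]
    congr 1
    · have h2 : ∀ α : Fin q, ∑ s : σ α, ∑ s' : σ α, min (Δ s.1.1) (Δ s'.1.1) =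
          ∑ w ∈ T, if κ w = α then (M : ℝ) ^ 2 * ∑ w' ∈ T,
            (if κ w' = κ w then (n w : ℝ) * n w' * min (Δ w') (Δ w) else 0) else 0 := by
        intro α
        have h3 : ∀ s : σ α, ∑ s' : σ α, min (Δ s.1.1) (Δ s'.1.1) =
            M * ∑ w' ∈ T, if κ w' = α then (n w' : ℝ) * min (Δ s.1.1) (Δ w') else 0 :=
          fun s => hsum α (fun w' => min (Δ s.1.1) (Δ w'))
        rw [Finset.sum_congr rfl fun s _ => h3 s,
          hsum α (fun w => M * ∑ w' ∈ T, if κ w' = α then (n w' : ℝ) * min (Δ w) (Δ w') else 0),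
          Finset.mul_sum]
        refine Finset.sum_congr rfl fun w _ => ?_
        by_cases h : κ w = α
        · rw [if_pos h, if_pos h]
          have h4 : ∑ w' ∈ T, (if κ w' = κ w then (n w : ℝ) * n w' * min (Δ w') (Δ w) else 0) =
              n w * ∑ w' ∈ T, if κ w' = α then (n w' : ℝ) * min (Δ w) (Δ w') else 0 := by
            rw [Finset.mul_sum]
            refine Finset.sum_congr rfl fun w' _ => ?_
            rw [h]
            split_ifs
            · rw [min_comm]
              ring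
            · ring
          rw [h4]
          ring
        · rw [if_neg h, if_neg h, mul_zero]
      rw [Finset.sum_congr rfl fun α _ => h2 α, Finset.sum_comm, Finset.mul_sum]
      refine Finset.sum_congr rfl fun w _ => ?_
      rw [Finset.sum_ite_eq, if_pos (Finset.mem_univ _)]
    · rw [Finset.sum_congr rfl fun α _ => hsum α Δ, ← Finset.mul_sum, Finset.sum_comm]
      congr 1
      refine Finset.sum_congr rfl fun w _ => ?_
      rw [Finset.sum_ite_eq, if_pos (Finset.mem_univ _)]

end Pool.Agent.H85.V
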