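import Mathlib

/-!
The combinatorial part: a chain of exponents adapted to the conjugates at one place.
-/

set_option autoImplicit false

open Finset

namespace Pool.Agent.H85.V

/-- the sums of all but `a` of the numbers -/
theorem tails {σ : Type} [Fintype σ] (δ : σ → ℝ) (hδ : ∀ s, 0 ≤ δ s) :
    ∃ f : ℕ → ℝ, (∀ a, 0 ≤ f a) ∧ (∀ a, Fintype.card σ ≤ a → f a = 0) ∧ (∀ a, f a ≤ ∑ s, δ s) ∧
      (∀ (a : ℕ) (D : ℝ), 0 ≤ D → ∑ s, min (δ s) D - a * D ≤ f a) ∧
      ∑ a ∈ range (Fintype.card σ), f a ≤ (∑ s, ∑ s', min (δ s) (δ s') + ∑ s, δ s) / 2 := by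
  classical
  set N := Fintype.card σ with hN
  let e0 : Fin N ≃ σ := (Fintype.equivFin σ).symm
  let e : Fin N ≃ σ := (Tuple.sort fun i => -δ (e0 i)).trans e0
  have hanti : ∀ i j : Fin N, i ≤ j → δ (e j) ≤ δ (e i) := by
    intro i j hij
    have := Tuple.monotone_sort (fun i => -δ (e0 i)) hij
    simpa [e] using this
  set d : Fin N → ℝ := fun i => δ (e i) with hd
  have hd0 : ∀ i, 0 ≤ d i := fun i => hδ _
  have hsum : ∀ F : σ → ℝ, ∑ s, F s = ∑ i, F (e i) := fun F => (Equiv.sum_comp e F).symm
  refine ⟨fun a => ∑ i : Fin N, if a ≤ (i : ℕ) then d i else 0, fun a => ?_, fun a ha => ?_,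
    fun a => ?_, fun a D hD => ?_, ?_⟩
  · exact Finset.sum_nonneg fun i _ => by split_ifs <;> simp [hd0]
  · refine Finset.sum_eq_zero fun i _ => ?_
    rw [if_neg]
    have := i.2
    omega
  · rw [hsum]
    exact Finset.sum_le_sum fun i _ => by
      split_ifs
      · exact le_rfl
      · exact hd0 i
  · rw [hsum]
    have h1 : ∑ i : Fin N, min (d i) D ≤ ∑ i : Fin N, ((if a ≤ (i : ℕ) then d i else 0) +
        (if (i : ℕ) < a then D else 0)) := by
      refine Finset.sum_le_sum fun i _ => ?_
      by_cases h : a ≤ (i : ℕ)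
      · rw [if_pos h, if_neg (by omega), add_zero]
        exact min_le_left _ _
      · rw [if_neg h, if_pos (by omega), zero_add]
        exact min_le_right _ _
    rw [Finset.sum_add_distrib] at h1
    have h2 : ∑ i : Fin N, (if (i : ℕ) < a then D else 0) ≤ a * D := by
      rw [← Finset.sum_filter, Finset.sum_const, nsmul_eq_mul]
      refine mul_le_mul_of_nonneg_right ?_ hD
      have h3 : (Finset.univ.filter fun i : Fin N => (i : ℕ) < a).card ≤ (range a).card :=
        Finset.card_le_card_of_injOn (fun i => (i : ℕ)) (fun i hi => by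
          simpa using hi) (fun i _ j _ hij => Fin.ext hij)
      rw [card_range] at h3
      exact_mod_cast h3
    linarith
  · have h1 : ∑ a ∈ range N, (∑ i : Fin N, if a ≤ (i : ℕ) then d i else 0) =
        ∑ i : Fin N, ((i : ℕ) + 1 : ℝ) * d i := by
      rw [Finset.sum_comm]
      refine Finset.sum_congr rfl fun i _ => ?_
      rw [← Finset.sum_filter, Finset.sum_const, nsmul_eq_mul]
      congr 1
      have h3 : (range N).filter (fun a => a ≤ (i : ℕ)) = range ((i : ℕ) + 1) := by
        ext a
        have := i.2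
        simp only [mem_filter, mem_range]
        omega
      rw [h3, card_range]
      push_cast
      ring
    have h2 : ∑ s, ∑ s', min (δ s) (δ s') = ∑ i : Fin N, ∑ j : Fin N, min (d i) (d j) := by
      rw [hsum]
      exact Finset.sum_congr rfl fun i _ => hsum _
    have h3 : ∑ i : Fin N, (2 * (i : ℕ) + 1 : ℝ) * d i ≤ ∑ i : Fin N, ∑ j : Fin N, min (d i) (d j) := by
      have h4 : ∑ i : Fin N, ∑ j : Fin N, min (d i) (d j) = ∑ i : Fin N, ∑ j : Fin N,
          ((if j ≤ i then d i else 0) + (if i < j then d j else 0)) := by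
        refine Finset.sum_congr rfl fun i _ => Finset.sum_congr rfl fun j _ => ?_
        by_cases h : j ≤ i
        · rw [if_pos h, if_neg (not_lt.2 h), add_zero, min_eq_left (hanti j i h)]
        · rw [if_neg h, if_pos (not_le.1 h), zero_add, min_eq_right (hanti i j (not_le.1 h).le)]
      rw [h4]
      simp only [Finset.sum_add_distrib]
      have h5 : ∑ i : Fin N, ∑ j : Fin N, (if i < j then d j else 0) =
          ∑ i : Fin N, ∑ j : Fin N, (if j < i then d i else 0) := Finset.sum_comm
      rw [h5, ← Finset.sum_add_distrib]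
      refine Finset.sum_le_sum fun i _ => ?_
      rw [← Finset.sum_filter, ← Finset.sum_filter, Finset.sum_const, Finset.sum_const,
        nsmul_eq_mul, nsmul_eq_mul, ← add_mul]
      refine le_of_eq ?_
      congr 1
      have h6 : (Finset.univ.filter fun j : Fin N => j ≤ i).card = (i : ℕ) + 1 := by
        have : (Finset.univ.filter fun j : Fin N => j ≤ i) = Finset.Iic i := by ext; simp
        rw [this, Fin.card_Iic]
      have h7 : (Finset.univ.filter fun j : Fin N => j < i).card = (i : ℕ) := by
        have : (Finset.univ.filter fun j : Fin N => j < i) = Finset.Iio i := by ext; simp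
        rw [this, Fin.card_Iio]
      rw [h6, h7]
      push_cast
      ring
    rw [h1, h2, hsum]
    have h8 : ∑ i : Fin N, ((i : ℕ) + 1 : ℝ) * d i =
        (∑ i : Fin N, (2 * (i : ℕ) + 1 : ℝ) * d i + ∑ i : Fin N, δ (e i)) / 2 := by
      rw [← Finset.sum_add_distrib, Finset.sum_div]
      exact Finset.sum_congr rfl fun i _ => by simp only [hd]; ring
    rw [h8]
    linarith

/-- the greedy chain -/
theorem greedy_chain {q : ℕ} (hq : 0 < q) (f : Fin q → ℕ → ℝ) :
    ∃ (i : ℕ → Fin q) (e : ℕ → Fin q → ℕ), e 0 = 0 ∧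
      (∀ s, e (s + 1) = Function.update (e s) (i s) (e s (i s) + 1)) ∧
      (∀ s α, f α (e s α) ≤ f (i s) (e s (i s))) ∧
      ∀ s, ∑ j ∈ range s, f (i j) (e j (i j)) = ∑ α, ∑ a ∈ range (e s α), f α a := by
  classical
  have hne : Nonempty (Fin q) := ⟨⟨0, hq⟩⟩
  have hmax : ∀ e : Fin q → ℕ, ∃ i : Fin q, ∀ α, f α (e α) ≤ f i (e i) := fun e =>
    Finite.exists_max fun α => f α (e α)
  choose c hc using hmax
  let e : ℕ → Fin q → ℕ := fun s => Nat.rec 0 (fun _ x => Function.update x (c x) (x (c x) + 1)) s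
  have hes : ∀ s, e (s + 1) = Function.update (e s) (c (e s)) (e s (c (e s)) + 1) := fun s => rfl
  refine ⟨fun s => c (e s), e, rfl, hes, fun s α => hc _ α, fun s => ?_⟩
  induction s with
  | zero =>
    simp only [range_zero, sum_empty]
    symm
    refine Finset.sum_eq_zero fun α _ => ?_
    show ∑ a ∈ range 0, f α a = 0
    rfl
  | succ s ih =>
    rw [Finset.sum_range_succ, ih]
    set i := c (e s) with hi
    have h1 : ∀ α, ∑ a ∈ range (e (s + 1) α), f α a = ∑ a ∈ range (e s α), f α a +
        if α = i then f i (e s i) else 0 := by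
      intro α
      rw [hes]
      by_cases h : α = i
      · subst h
        rw [Function.update_self, Finset.sum_range_succ, if_pos rfl]
      · rw [Function.update_of_ne h, if_neg h, add_zero]
    rw [Finset.sum_congr rfl fun α _ => h1 α, Finset.sum_add_distrib, Finset.sum_ite_eq',
      if_pos (Finset.mem_univ _)]

end Pool.Agent.H85.V
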