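import Pool.Agent.H85.V.Loc

/-!
The global estimate.
-/

set_option autoImplicit false

namespace Pool.Agent.H85.V

open MvPolynomial Finset NumberField IsDedekindDomain Height Module
open Pool.Agent.W180.OP Pool.Agent.W180.TP Pool.Agent.TH875 Pool.Agent.NH28

/-- the Liouville inequality, the sum being taken over the places above `S` -/
theorem sum_lio {K : Type} [Field K] [NumberField K] {n d : ℕ} (F : MvPolynomial (Fin n) K)
    (hF : F.IsHomogeneous d) : ∃ C : ℝ, 0 ≤ C ∧ ∀ (L : Type) [Field L] [NumberField L]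
      [Algebra K L] (S : Finset (Pl K)) (x : Fin n → L), x ≠ 0 → aeval x F ≠ 0 →
      ∑ v ∈ S, ∑ w ∈ ab L v, wt w * max 0 (lam (av w) d (bc L F) x) ≤
        d * logHeight x + C * finrank ℚ L := by
  classical
  obtain ⟨C, hC0, hC⟩ := liou_u F d hF
  refine ⟨C, hC0, fun L _ _ _ S x hx hFx => ?_⟩
  refine le_trans (le_of_eq ?_) (hC L (S.biUnion fun v => ab L v) x hx hFx)
  rw [Finset.sum_biUnion]
  intro v _ v' _ hvv'
  show Disjoint (ab L v) (ab L v')
  rw [Finset.disjoint_left]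
  intro w hw hw'
  exact hvv' (ov_unique (mem_ab.1 hw) (mem_ab.1 hw'))

lemma fin_ineq {H hz X Bt Y r M' C1 C2 C3 C4 Cp Cb ε' Sg q : ℝ} (hr : 1 ≤ r) (hM : 1 ≤ M')
    (hH : 0 ≤ H) (hC1 : 0 ≤ C1) (hC2 : 0 ≤ C2) (hC3 : 0 ≤ C3) (hC4 : 0 ≤ C4) (hCp : 0 ≤ Cp)
    (hCb : 0 ≤ Cb) (hX : 0 ≤ X)
    (hY : Y = r * M' * H + C1 * (H + 1) + C2) (hε' : ε' = 1 / (r * (C3 + 1)))
    (hSg : Sg * r = Y - M' * X) (hBt : Bt ≤ q * H + Cb) (hz3 : hz ≤ C3 * (H + 1))
    (hmain : (r * M' + 1) * hz ≤ ((r * M' + 1) + ε') * hz + C4 +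
      ((r * M' + 1) * (Sg + Cp) + (M' ^ 2 * X + M' * Bt) / 2)) :
    X ≤ (2 * r + (4 + 4 * C1 + q) / M') * H +
      2 * ((r * M' + 1) * (C1 + C2) + r / 2 * M' * Cb + 1 + r * C4 + (r * M' + 1) * r * Cp) := by
  have h1 : 0 ≤ ε' * hz + C4 + ((r * M' + 1) * (Sg + Cp) + (M' ^ 2 * X + M' * Bt) / 2) := by
    linarith
  have h2 : 0 ≤ r * (ε' * hz + C4 + ((r * M' + 1) * (Sg + Cp) + (M' ^ 2 * X + M' * Bt) / 2)) :=
    mul_nonneg (by linarith) h1
  have hε0 : 0 ≤ ε' := by rw [hε']; positivity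
  have h4 : r * (ε' * hz) ≤ H + 1 := by
    have h5 : r * (ε' * hz) ≤ r * (ε' * (C3 * (H + 1))) :=
      mul_le_mul_of_nonneg_left (mul_le_mul_of_nonneg_left hz3 hε0) (by linarith)
    refine h5.trans ?_
    rw [hε']
    have h6 : r * (1 / (r * (C3 + 1)) * (C3 * (H + 1))) = (C3 / (C3 + 1)) * (H + 1) := by
      have : r ≠ 0 := by linarith
      have : C3 + 1 ≠ 0 := by linarith
      field_simp
    rw [h6]
    have h7 : C3 / (C3 + 1) ≤ 1 := by
      rw [div_le_one (by linarith)]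
      linarith
    have h8 := mul_le_mul_of_nonneg_right h7 (by linarith : (0 : ℝ) ≤ H + 1)
    linarith
  have hM0 : 0 < M' := by linarith
  have hr0 : 0 < r := by linarith
  have h5 : r * (ε' * hz + C4 + ((r * M' + 1) * (Sg + Cp) + (M' ^ 2 * X + M' * Bt) / 2)) =
      r * (ε' * hz) + r * C4 + (r * M' + 1) * (Sg * r) + (r * M' + 1) * r * Cp +
        r * M' ^ 2 * X / 2 + r / 2 * M' * Bt := by ring
  rw [h5, hSg, hY] at h2
  have h6 : r / 2 * M' * Bt ≤ r / 2 * M' * (q * H + Cb) :=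
    mul_le_mul_of_nonneg_left hBt (by positivity)
  have h7 : 0 ≤ M' * X := by positivity
  have h8 : r * M' ^ 2 * X ≤ (2 + 2 * (r * M' + 1) * (r * M' + C1) + r * M' * q) * H +
      2 * ((r * M' + 1) * (C1 + C2) + r / 2 * M' * Cb + 1 + r * C4 + (r * M' + 1) * r * Cp) := by
    nlinarith
  have h9 : (2 + 2 * (r * M' + 1) * (r * M' + C1) + r * M' * q) ≤
      r * M' ^ 2 * (2 * r + (4 + 4 * C1 + q) / M') := by
    have h10 : r * M' ^ 2 * (2 * r + (4 + 4 * C1 + q) / M') =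
        2 * (r * M') ^ 2 + r * M' * (4 + 4 * C1 + q) := by
      field_simp
    rw [h10]
    have h11 : 1 ≤ r * M' := one_le_mul_of_one_le_of_one_le hr hM
    nlinarith
  set Cc : ℝ := 2 * ((r * M' + 1) * (C1 + C2) + r / 2 * M' * Cb + 1 + r * C4 +
    (r * M' + 1) * r * Cp) with hCc
  have hCc0 : 0 ≤ Cc := by positivity
  have h11 : 1 ≤ r * M' ^ 2 := one_le_mul_of_one_le_of_one_le hr (one_le_pow₀ hM)
  have h12 : r * M' ^ 2 * X ≤ r * M' ^ 2 * ((2 * r + (4 + 4 * C1 + q) / M') * H + Cc) := by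
    have h13 := mul_le_mul_of_nonneg_right h9 hH
    have h14 : Cc ≤ r * M' ^ 2 * Cc := le_mul_of_one_le_left hCc0 h11
    nlinarith
  exact le_of_mul_le_mul_left h12 (by linarith)

lemma mo_int {K : Type} [Field K] [NumberField K] (M j : ℕ) (v : HeightOneSpectrum (𝓞 K))
    (β : Fin 2 →₀ ℕ) : fv v ((monomial (mo M j) 1 : MvPolynomial (Fin 2) K).coeff β) ≤ 1 := by
  classical
  rw [coeff_monomial]
  split_ifs
  · rw [map_one]
  · rw [map_zero]
    exact zero_le_one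

/-- the exponents zero -/
def ex0 (q M : ℕ) : Ex q M := ⟨fun _ => 0, by
  rw [Finset.sum_eq_zero fun i _ => Fin.val_zero _]
  exact Nat.zero_le _⟩

theorem glob {K : Type} [Field K] [NumberField K] {q : ℕ} (hq : 0 < q) (α : Fin q → Fin 2 → K)
    (m : Fin 2 → K) (hm : ∀ i, m 0 * α i 1 - m 1 * α i 0 ≠ 0) (r M' : ℕ) (hr : 1 ≤ r)
    (hM' : 1 ≤ M') (C1 : ℝ) (hC1 : ThetaP K 2 r C1) :
    ∃ Z : MvPolynomial (Fin 2) K, Z ≠ 0 ∧ (∃ t, Z.IsHomogeneous t) ∧ ∀ S : Finset (Pl K),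
      (∀ v : InfinitePlace K, Sum.inl v ∈ S) →
      ∃ C c0 : ℝ, 0 ≤ C ∧ 0 ≤ c0 ∧ ∀ (L : Type) [Field L] [NumberField L] [Algebra K L],
        finrank K L = r → ∀ x : Fin 2 → L, x ≠ 0 →
        IntermediateField.adjoin K {z | ∃ i j, z = x i / x j} = ⊤ →
        (∀ i, aeval x (ln (α i)) ≠ 0) → aeval x Z ≠ 0 →
        (∀ w i, -c0 ≤ wt w * lam (av w) 1 (bc L (ln (α i))) x) ∧
        ∀ κ : Pl L → Fin q, ∑ v ∈ S, QQ α x c0 κ v ≤
          (2 * r + (4 + 4 * C1 + q) / M') * logHeight x + C := by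
  classical
  have hN1 : 1 ≤ r * M' + 1 := by omega
  set M : ℕ := r * M' with hMdef
  set mono : Fin (M + 1) → MvPolynomial (Fin 2) K := fun j => monomial (mo M j) 1 with hmono
  have hmono_hom : ∀ j, (mono j).IsHomogeneous M := fun j =>
    isHomogeneous_monomial _ (mo_degree (by have := j.2; omega))
  -- the subspace theorem
  obtain ⟨Z0, hZ0, hsch⟩ := sch_rat (k := K) hN1 (fun (e : Ex q M) j =>
    co M (fo α m M fun i => (e.1 i : ℕ)) j)
  set I : Type := {z // z ∈ Z0} ⊕ Fin (M + 1) ⊕ Unit with hI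
  set Fm : I → MvPolynomial (Fin 2) K :=
    Sum.elim (fun z => ∑ j, z.1 j • mono j) (Sum.elim mono fun _ => ln m) with hFm
  have hFm0 : ∀ i, Fm i ≠ 0 := by
    rintro (z | j | u)
    · exact comb_ne (hZ0 z.1 z.2)
    · show (monomial (mo M j) 1 : MvPolynomial (Fin 2) K) ≠ 0
      rw [Ne, monomial_eq_zero]
      exact one_ne_zero
    · intro h0
      apply hm ⟨0, hq⟩
      have h1 := congrArg (eval (α ⟨0, hq⟩)) (show ln m = 0 from h0)
      rw [eval_ln, map_zero] at h1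
      exact h1
  have hFmh : ∀ i, ∃ t, (Fm i).IsHomogeneous t := by
    rintro (z | j | u)
    · exact ⟨M, comb_hom z.1⟩
    · exact ⟨M, hmono_hom j⟩
    · exact ⟨1, ln_hom m⟩
  choose tF htF using hFmh
  refine ⟨∏ i, Fm i, Finset.prod_ne_zero_iff.2 fun i _ => hFm0 i,
    ⟨_, IsHomogeneous.prod _ _ _ fun i _ => htF i⟩, ?_⟩
  intro S hS
  -- the multiplier
  set I' : Type := {z // z ∈ Z0} ⊕ Ex q M ⊕ Fin (M + 1) with hI'
  set qn : ℕ := Fintype.card I' with hqn
  have hq0 : 0 < qn := Fintype.card_pos_iff.2 ⟨Sum.inr (Sum.inr ⟨0, by omega⟩)⟩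
  set eqv := Fintype.equivFin I' with heqv
  obtain ⟨C2, hC20, hθ⟩ := hC1.2 M qn hq0 S hS
  set Gm : I' → MvPolynomial (Fin 2) K :=
    Sum.elim (fun z => ∑ j, z.1 j • mono j)
      (Sum.elim (fun e => fo α m M fun i => (e.1 i : ℕ)) mono) with hGm
  have hGmh : ∀ i, (Gm i).IsHomogeneous M := by
    rintro (z | e | j)
    · exact comb_hom z.1
    · exact fo_hom α m M _ e.2
    · exact hmono_hom j
  -- lower bounds for the local heights
  choose Cf hCf0 hCf using fun i : Fin q => form_ub (ln (α i)) (ln_hom (α i))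
  obtain ⟨Cm, hCm0, hCm⟩ := form_ub (ln m) (ln_hom m)
  choose Cl hCl0 hCl using fun i : Fin q => sum_lio (ln (α i)) (ln_hom (α i))
  set Q : ℝ := (finrank ℚ K : ℝ) * r with hQ
  have hQ0 : 0 ≤ Q := by positivity
  have hCfs : 0 ≤ ∑ t, Cf t := Finset.sum_nonneg fun t _ => hCf0 t
  have hCls : 0 ≤ ∑ t, Cl t := Finset.sum_nonneg fun t _ => hCl0 t
  set c0 : ℝ := (∑ t, Cf t + Cm) * Q with hc0
  have hc00 : 0 ≤ c0 := mul_nonneg (by positivity) hQ0
  choose Cv hCv0 hCv using fun v : Pl K => place hq α m hm v r M M' c0 hc00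
  set Cp : ℝ := ∑ v ∈ S, Cv v with hCp
  have hCp0 : 0 ≤ Cp := Finset.sum_nonneg fun v _ => hCv0 v
  set Cb : ℝ := (∑ t, Cl t) * Q + S.card * (r * c0) with hCb
  have hCb0 : 0 ≤ Cb := by positivity
  have hC10 := hC1.1
  set C3 : ℝ := M + C1 + C2 + M' * (q + Cb) + Cp with hC3
  have hC30 : 0 ≤ C3 := by positivity
  have hr1 : (1 : ℝ) ≤ r := by exact_mod_cast hr
  set ε' : ℝ := 1 / (r * (C3 + 1)) with hε'
  have hε'0 : 0 < ε' := by positivity
  obtain ⟨C4, hC40, hsch'⟩ := hsch S ε' hε'0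
  refine ⟨2 * ((r * M' + 1) * (C1 + C2) + r / 2 * M' * Cb + 1 + r * C4 + (r * M' + 1) * r * Cp),
    c0, by positivity, hc00, ?_⟩
  intro L _ _ _ hrL x hx hadj hαx hZx
  have hrL' : finrank K L ≤ r := hrL.le
  have hfq : (finrank ℚ L : ℝ) = Q := by
    have h1 : finrank ℚ K * finrank K L = finrank ℚ L := finrank_mul_finrank ℚ K L
    rw [hQ, ← h1, hrL]
    push_cast
    ring
  have hFx : ∀ i, aeval x (Fm i) ≠ 0 := by
    intro i h0
    apply hZx
    rw [map_prod]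
    exact Finset.prod_eq_zero (Finset.mem_univ i) h0
  have hmx : aeval x (ln m) ≠ 0 := hFx (Sum.inr (Sum.inr ()))
  have hGx : ∀ i, aeval x (Gm i) ≠ 0 := by
    rintro (z | e | j)
    · exact hFx (Sum.inl z)
    · show aeval x (fo α m M fun i => (e.1 i : ℕ)) ≠ 0
      unfold fo
      rw [map_mul, map_prod, map_pow]
      refine mul_ne_zero (Finset.prod_ne_zero_iff.2 fun i _ => ?_) (pow_ne_zero _ hmx)
      rw [map_pow]
      exact pow_ne_zero _ (hαx i)
    · exact hFx (Sum.inr (Sum.inl j))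
  have hlow : ∀ w i, -c0 ≤ wt w * lam (av w) 1 (bc L (ln (α i))) x := by
    intro w i
    have h1 := hCf i L w x hx (hαx i)
    have h2 : Cf i ≤ ∑ t, Cf t :=
      Finset.single_le_sum (f := Cf) (fun t _ => hCf0 t) (Finset.mem_univ _)
    rw [hfq] at h1
    have h3 : Cf i * Q ≤ (∑ t, Cf t + Cm) * Q := mul_le_mul_of_nonneg_right (by linarith) hQ0
    linarith
  have hlowm : ∀ w, -c0 ≤ wt w * lam (av w) 1 (bc L (ln m)) x := by
    intro w
    have h1 := hCm L w x hx hmx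
    rw [hfq] at h1
    have h3 : Cm * Q ≤ (∑ t, Cf t + Cm) * Q := mul_le_mul_of_nonneg_right (by linarith) hQ0
    linarith
  refine ⟨hlow, fun κ => ?_⟩
  choose bel hbel using fun w : Pl L => exists_below (K := K) w
  set H : ℝ := logHeight x with hHdef
  have hH0 : 0 ≤ H := logHeight_nonneg x
  set X : ℝ := ∑ v ∈ S, QQ α x c0 κ v with hXdef
  have hX0 : 0 ≤ X := Finset.sum_nonneg fun v _ => QQ_nonneg α x c0 κ hlow v
  set Bt : ℝ := ∑ v ∈ S, BB α x c0 κ v with hBtdef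
  have hBt0 : 0 ≤ Bt := Finset.sum_nonneg fun v _ => BB_nonneg α x c0 κ hlow v
  -- the Liouville inequality
  have hBt : Bt ≤ q * H + Cb := by
    have h1 : ∀ v ∈ S, BB α x c0 κ v ≤
        ∑ i, (∑ w ∈ ab L v, wt w * max 0 (lam (av w) 1 (bc L (ln (α i))) x)) + r * c0 := by
      intro v _
      have h2 : ∀ w ∈ ab L v, nn v w * De α x c0 κ v w ≤
          ∑ i, wt w * max 0 (lam (av w) 1 (bc L (ln (α i))) x) + c0 := by
        intro w hw
        have hnn := one_le_nn (mem_ab.1 hw)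
        unfold De
        rw [mul_div_cancel₀ _ (by linarith)]
        have h3 : wt w * lam (av w) 1 (bc L (ln (α (κ w)))) x ≤
            wt w * max 0 (lam (av w) 1 (bc L (ln (α (κ w)))) x) :=
          mul_le_mul_of_nonneg_left (le_max_right _ _) (wt_nonneg w)
        have h4 : wt w * max 0 (lam (av w) 1 (bc L (ln (α (κ w)))) x) ≤
            ∑ i, wt w * max 0 (lam (av w) 1 (bc L (ln (α i))) x) :=
          Finset.single_le_sum (f := fun i => wt w * max 0 (lam (av w) 1 (bc L (ln (α i))) x))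
            (fun i _ => mul_nonneg (wt_nonneg w) (le_max_left _ _)) (Finset.mem_univ (κ w))
        linarith
      refine (Finset.sum_le_sum h2).trans ?_
      rw [Finset.sum_add_distrib, Finset.sum_const, nsmul_eq_mul, Finset.sum_comm]
      refine add_le_add le_rfl (mul_le_mul_of_nonneg_right ?_ hc00)
      exact_mod_cast (card_ab_le L v).trans hrL'
    refine (Finset.sum_le_sum h1).trans ?_
    rw [Finset.sum_add_distrib, Finset.sum_const, nsmul_eq_mul, Finset.sum_comm]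
    have h2 : ∀ i ∈ (Finset.univ : Finset (Fin q)),
        ∑ v ∈ S, ∑ w ∈ ab L v, wt w * max 0 (lam (av w) 1 (bc L (ln (α i))) x) ≤
          H + Cl i * Q := by
      intro i _
      have h3 := hCl i L S x hx (hαx i)
      rw [hfq, Nat.cast_one, one_mul] at h3
      exact h3
    have h3 := Finset.sum_le_sum h2
    rw [Finset.sum_add_distrib, Finset.sum_const, Finset.card_univ, Fintype.card_fin,
      nsmul_eq_mul, ← Finset.sum_mul] at h3
    rw [hCb]
    linarith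
  set sc : ℝ := (S.card : ℝ) with hsc
  obtain ⟨v0⟩ : Nonempty (InfinitePlace K) := inferInstance
  have hsc1 : (1 : ℝ) ≤ sc := by
    have : 0 < S.card := Finset.card_pos.2 ⟨_, hS v0⟩
    rw [hsc]
    exact_mod_cast this
  set Y : ℝ := M * H + C1 * (H + 1) + C2 with hY
  have hY0 : 0 ≤ Y := by positivity
  set b : ℝ := (Y - M' * X) / (sc * r) with hb
  have hb' : sc * b * r = Y - M' * X := by
    rw [hb]
    have : sc ≠ 0 := by linarith
    have : (r : ℝ) ≠ 0 := by linarith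
    field_simp
  have hbelv : ∀ v, ∀ w ∈ ab L v, bel w = v := fun v w hw => ov_unique (hbel w) (mem_ab.1 hw)
  have hbeta : ∑ v ∈ S, ∑ w ∈ ab L v, nn (bel w) w * (b + M' * tt α x c0 κ (bel w) w) = Y := by
    have h1 : ∀ v ∈ S, ∑ w ∈ ab L v, nn (bel w) w * (b + M' * tt α x c0 κ (bel w) w) =
        r * b + M' * QQ α x c0 κ v := by
      intro v _
      have h2 := sum_nn L v
      rw [hrL] at h2
      unfold QQ
      rw [← h2, Finset.sum_mul, Finset.mul_sum, ← Finset.sum_add_distrib]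
      refine Finset.sum_congr rfl fun w hw => ?_
      rw [hbelv v w hw]
      ring
    rw [Finset.sum_congr rfl h1, Finset.sum_add_distrib, Finset.sum_const, nsmul_eq_mul,
      ← Finset.mul_sum, ← hXdef]
    have h2 : (S.card : ℝ) * (r * b) = sc * b * r := by rw [hsc]; ring
    rw [h2, hb']
    ring
  obtain ⟨θ, hθ1, hθ2, hθ3⟩ := hθ L hrL' x hx hadj (fun i => aeval x (Gm (eqv.symm i)))
    (fun i => hGx _) (fun w => nn (bel w) w * (b + M' * tt α x c0 κ (bel w) w))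
    (le_of_eq hbeta.symm)
  have htr : ∀ i, Algebra.trace K L (θ * aeval x (Gm i)) ≠ 0 := fun i => by
    have := hθ1 (eqv i)
    rwa [eqv.symm_apply_apply] at this
  have hθ0 : θ ≠ 0 := by
    rintro rfl
    apply htr (Sum.inr (Sum.inr ⟨0, by omega⟩))
    rw [zero_mul, map_zero]
  set z : Fin (M + 1) → K := fun j => Algebra.trace K L (θ * aeval x (mono j)) with hz
  have hzj : ∀ j, z j ≠ 0 := fun j => htr (Sum.inr (Sum.inr j))
  have hz0 : z ≠ 0 := fun h0 => hzj ⟨0, by omega⟩ (congrFun h0 _)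
  have hlin : ∀ c : Fin (M + 1) → K, Algebra.trace K L (θ * aeval x (∑ j, c j • mono j)) =
      ∑ j, c j * z j := by
    intro c
    rw [map_sum, Finset.mul_sum, map_sum]
    refine Finset.sum_congr rfl fun j _ => ?_
    rw [map_smul, mul_smul_comm, map_smul, smul_eq_mul]
  have hlin2 : ∀ F : MvPolynomial (Fin 2) K, F.IsHomogeneous M →
      Algebra.trace K L (θ * aeval x F) = ∑ j, co M F j * z j := by
    intro F hF
    conv_lhs => rw [form_eq hF]
    exact hlin (co M F)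
  have hkey : ∀ v ∈ S, (∀ j, wt v * Real.log (av v (z j)) ≤
      b + M' * BB α x c0 κ v + Cv v) ∧
      ∃ β : Fin (M + 1) → Ex q M,
        LinearIndependent K (fun s => co M (fo α m M fun i => ((β s).1 i : ℕ))) ∧
        ∑ s, wt v * Real.log (av v (∑ j, co M (fo α m M fun i => ((β s).1 i : ℕ)) j * z j)) ≤
          (M + 1) * (b + Cv v) + ((M' : ℝ) ^ 2 * QQ α x c0 κ v + M' * BB α x c0 κ v) / 2 := by
    intro v hv
    obtain ⟨h1, h2⟩ := hCv v L hrL' x hx hαx hmx κ hlow hlowm θ b hθ0 (fun w hw => by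
      have h3 := hθ2 v hv w hw
      simp only [hbelv v w hw] at h3
      exact h3)
    obtain ⟨β, hβ1, hβ2⟩ := h2 (fun e => htr (Sum.inr (Sum.inl e)))
    refine ⟨fun j => h1 j (hFx (Sum.inr (Sum.inl j))) (hzj j), β, hβ1, ?_⟩
    refine le_trans (le_of_eq ?_) hβ2
    refine Finset.sum_congr rfl fun s _ => ?_
    rw [hlin2 _ (fo_hom α m M _ (β s).2)]
  have hkey2 : ∀ v, ∃ β : Fin (M + 1) → Ex q M, v ∈ S →
        LinearIndependent K (fun s => co M (fo α m M fun i => ((β s).1 i : ℕ))) ∧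
        ∑ s, wt v * Real.log (av v (∑ j, co M (fo α m M fun i => ((β s).1 i : ℕ)) j * z j)) ≤
          (M + 1) * (b + Cv v) + ((M' : ℝ) ^ 2 * QQ α x c0 κ v + M' * BB α x c0 κ v) / 2 := by
    intro v
    by_cases hv : v ∈ S
    · obtain ⟨-, β, h1, h2⟩ := hkey v hv
      exact ⟨β, fun _ => ⟨h1, h2⟩⟩
    · exact ⟨fun _ => ex0 q M, fun h => absurd h hv⟩
  choose β hβ using hkey2
  have hs1 := hsch' z hz0 (fun z' hz' => by
    have h1 := htr (Sum.inl ⟨z', hz'⟩)
    rw [← hlin]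
    exact h1) (fun e => by
    have h1 := htr (Sum.inr (Sum.inl e))
    have h2 := hlin2 (fo α m M fun i => (e.1 i : ℕ)) (fo_hom α m M _ e.2)
    rw [← h2]
    exact h1) β (fun v hv => (hβ v hv).1)
  set hz' : ℝ := logHeight z with hhz
  have hhz0 : 0 ≤ hz' := logHeight_nonneg z
  have hsum1 : hz' ≤ ∑ v ∈ S, wt v * Real.log (nrm (av v) z) := by
    refine height_le_sum hz0 S hS fun v hv j => ?_
    refine int_trace (mono j) (hmono_hom j) v (mo_int M j v) x θ fun w hw => ?_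
    exact hθ3 _ hv w hw
  have hsum2 : ∀ v ∈ S, wt v * Real.log (nrm (av v) z) ≤
      b + M' * BB α x c0 κ v + Cv v := by
    intro v hv
    obtain ⟨j, hj⟩ := exists_nrm (av v) (by omega : 0 < M + 1) z
    rw [← hj]
    exact (hkey v hv).1 j
  have hz3a : hz' ≤ sc * b + M' * Bt + Cp := by
    refine hsum1.trans ((Finset.sum_le_sum hsum2).trans (le_of_eq ?_))
    rw [Finset.sum_add_distrib, Finset.sum_add_distrib, Finset.sum_const, nsmul_eq_mul,
      ← Finset.mul_sum]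
  have hscb : sc * b ≤ Y := by
    have h1 : sc * b * r ≤ Y := by
      rw [hb']
      have : 0 ≤ M' * X := by positivity
      linarith
    rcases le_total 0 (sc * b) with h2 | h2
    · exact (le_mul_of_one_le_right h2 hr1).trans h1
    · linarith
  have hz3 : hz' ≤ C3 * (H + 1) := by
    have h1 : (M' : ℝ) * Bt ≤ M' * ((q + Cb) * (H + 1)) := by
      refine mul_le_mul_of_nonneg_left ?_ (Nat.cast_nonneg _)
      have h2 : (q + Cb) * (H + 1) = q * H + Cb + (q + Cb * H) := by ring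
      have h3 : 0 ≤ (q : ℝ) + Cb * H := add_nonneg (Nat.cast_nonneg _) (mul_nonneg hCb0 hH0)
      linarith
    have h2 : C3 * (H + 1) = Y + M' * ((q + Cb) * (H + 1)) + Cp + (M + C2 * H + Cp * H) := by
      rw [hC3, hY]
      ring
    have h3 : 0 ≤ (M : ℝ) + C2 * H + Cp * H :=
      add_nonneg (add_nonneg (Nat.cast_nonneg _) (mul_nonneg hC20 hH0)) (mul_nonneg hCp0 hH0)
    rw [h2]
    linarith
  have hmain : ((r : ℝ) * M' + 1) * hz' ≤ (((r : ℝ) * M' + 1) + ε') * hz' + C4 +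
      (((r : ℝ) * M' + 1) * (sc * b + Cp) + ((M' : ℝ) ^ 2 * X + M' * Bt) / 2) := by
    have hN : ((M + 1 : ℕ) : ℝ) = (r : ℝ) * M' + 1 := by rw [hMdef]; push_cast; ring
    have hN' : ((M : ℕ) : ℝ) + 1 = (r : ℝ) * M' + 1 := by rw [hMdef]; push_cast; ring
    have h1 : ∑ v ∈ S, wt v * ∑ i, (Real.log (nrm (av v) z) -
        Real.log (av v (∑ j, co M (fo α m M fun i' => (((β v) i).1 i' : ℕ)) j * z j))) =
        ((M + 1 : ℕ) : ℝ) * ∑ v ∈ S, wt v * Real.log (nrm (av v) z) -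
        ∑ v ∈ S, ∑ s, wt v * Real.log (av v (∑ j,
          co M (fo α m M fun i' => (((β v) s).1 i' : ℕ)) j * z j)) := by
      rw [Finset.mul_sum, ← Finset.sum_sub_distrib]
      refine Finset.sum_congr rfl fun v _ => ?_
      rw [Finset.sum_sub_distrib, Finset.sum_const, Finset.card_univ, Fintype.card_fin,
        nsmul_eq_mul, mul_sub, Finset.mul_sum]
      ring
    have h2 : ∑ v ∈ S, ∑ s, wt v * Real.log (av v (∑ j,
          co M (fo α m M fun i' => (((β v) s).1 i' : ℕ)) j * z j)) ≤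
        ((r : ℝ) * M' + 1) * (sc * b + Cp) + ((M' : ℝ) ^ 2 * X + M' * Bt) / 2 := by
      refine (Finset.sum_le_sum fun v hv => (hβ v hv).2).trans (le_of_eq ?_)
      rw [Finset.sum_add_distrib, ← Finset.mul_sum, Finset.sum_add_distrib, Finset.sum_const,
        nsmul_eq_mul, ← Finset.sum_div, Finset.sum_add_distrib, ← Finset.mul_sum,
        ← Finset.mul_sum, hN']
    have h3 : ((r : ℝ) * M' + 1) * hz' ≤ ((r : ℝ) * M' + 1) *
        ∑ v ∈ S, wt v * Real.log (nrm (av v) z) :=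
      mul_le_mul_of_nonneg_left hsum1 (by positivity)
    rw [h1, hN] at hs1
    linarith
  have hM'1 : (1 : ℝ) ≤ M' := by exact_mod_cast hM'
  have hYY : Y = (r : ℝ) * M' * H + C1 * (H + 1) + C2 := by
    rw [hY, hMdef]
    push_cast
    ring
  exact fin_ineq hr1 hM'1 hH0 hC10 hC20 hC30 hC40 hCp0 hCb0 hX0 hYY hε' hb' hBt hz3 hmain

end Pool.Agent.H85.V
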