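import Pool.Agent.H85.V.Chain
import Pool.Agent.H85.V.Alg
import Pool.Graph.R_pool_sql_team_seeded_3dad9d7b.NH28.Glob

/-!
The estimate at one place.
-/

set_option autoImplicit false

namespace Pool.Agent.H85.V

open MvPolynomial Finset NumberField IsDedekindDomain Height Module
open Pool.Agent.W180.OP Pool.Agent.W180.TP Pool.Agent.TH875 Pool.Agent.NH28

lemma mult_cases {L : Type} [Field L] [NumberField L] (w : InfinitePlace L) :
    w.mult = 1 ∨ w.mult = 2 := by
  unfold InfinitePlace.mult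
  split_ifs
  · exact Or.inl rfl
  · exact Or.inr rfl

lemma nn_nat {K L : Type} [Field K] [NumberField K] [Field L] [NumberField L] [Algebra K L]
    {v : Pl K} {w : Pl L} (h : Ov v w) : ∃ n : ℕ, nn v w = n := by
  have h1 := one_le_nn h
  cases v with
  | inl v =>
    cases w with
    | inl w =>
      have e : nn (Sum.inl v : Pl K) (Sum.inl w : Pl L) = (w.mult : ℝ) / v.mult := rfl
      rw [e] at h1 ⊢
      rcases mult_cases v with hv | hv <;> rcases mult_cases w with hw | hw <;>
        rw [hv, hw] at h1 ⊢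
      · exact ⟨1, by norm_num⟩
      · exact ⟨2, by norm_num⟩
      · norm_num at h1
      · exact ⟨1, by norm_num⟩
    | inr w => exact h.elim
  | inr v =>
    cases w with
    | inl w => exact h.elim
    | inr w => exact ⟨ldeg v w, rfl⟩

section defs

variable {K L : Type} [Field K] [NumberField K] [Field L] [NumberField L] [Algebra K L] {q : ℕ}

/-- the normalised local height at `w` of the point next to `x` -/
noncomputable def De (α : Fin q → Fin 2 → K) (x : Fin 2 → L) (c0 : ℝ) (κ : Pl L → Fin q)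
    (v : Pl K) (w : Pl L) : ℝ := (wt w * lam (av w) 1 (bc L (ln (α (κ w)))) x + c0) / nn v w

/-- the interaction of `w` with the places above `v` -/
noncomputable def tt (α : Fin q → Fin 2 → K) (x : Fin 2 → L) (c0 : ℝ) (κ : Pl L → Fin q)
    (v : Pl K) (w : Pl L) : ℝ := ∑ w' ∈ ab L v, if κ w' = κ w then
      nn v w' * min (De α x c0 κ v w') (De α x c0 κ v w) else 0

/-- the quadratic form -/
noncomputable def QQ (α : Fin q → Fin 2 → K) (x : Fin 2 → L) (c0 : ℝ) (κ : Pl L → Fin q)
    (v : Pl K) : ℝ := ∑ w ∈ ab L v, nn v w * tt α x c0 κ v w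

/-- the linear form -/
noncomputable def BB (α : Fin q → Fin 2 → K) (x : Fin 2 → L) (c0 : ℝ) (κ : Pl L → Fin q)
    (v : Pl K) : ℝ := ∑ w ∈ ab L v, nn v w * De α x c0 κ v w

variable (α : Fin q → Fin 2 → K) (x : Fin 2 → L) (c0 : ℝ) (κ : Pl L → Fin q)

lemma De_nonneg (h : ∀ w i, -c0 ≤ wt w * lam (av w) 1 (bc L (ln (α i))) x) (v : Pl K) (w : Pl L) :
    0 ≤ De α x c0 κ v w := by
  refine div_nonneg ?_ (nn_nonneg v w)
  have := h w (κ w)
  linarith

lemma tt_nonneg (h : ∀ w i, -c0 ≤ wt w * lam (av w) 1 (bc L (ln (α i))) x) (v : Pl K) (w : Pl L) :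
    0 ≤ tt α x c0 κ v w := by
  refine Finset.sum_nonneg fun w' _ => ?_
  split_ifs
  · exact mul_nonneg (nn_nonneg _ _) (le_min (De_nonneg α x c0 κ h _ _) (De_nonneg α x c0 κ h _ _))
  · exact le_rfl

lemma tt_le (h : ∀ w i, -c0 ≤ wt w * lam (av w) 1 (bc L (ln (α i))) x) (v : Pl K) (w : Pl L) :
    tt α x c0 κ v w ≤ BB α x c0 κ v := by
  refine Finset.sum_le_sum fun w' _ => ?_
  split_ifs
  · exact mul_le_mul_of_nonneg_left (min_le_left _ _) (nn_nonneg _ _)
  · exact mul_nonneg (nn_nonneg _ _) (De_nonneg α x c0 κ h _ _)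

lemma QQ_nonneg (h : ∀ w i, -c0 ≤ wt w * lam (av w) 1 (bc L (ln (α i))) x) (v : Pl K) :
    0 ≤ QQ α x c0 κ v :=
  Finset.sum_nonneg fun w _ => mul_nonneg (nn_nonneg _ _) (tt_nonneg α x c0 κ h v w)

lemma BB_nonneg (h : ∀ w i, -c0 ≤ wt w * lam (av w) 1 (bc L (ln (α i))) x) (v : Pl K) :
    0 ≤ BB α x c0 κ v :=
  Finset.sum_nonneg fun w _ => mul_nonneg (nn_nonneg _ _) (De_nonneg α x c0 κ h v w)

end defs

/-- the exponents -/
abbrev Ex (q M : ℕ) : Type := {e : Fin q → Fin (M + 1) // ∑ i, (e i : ℕ) ≤ M}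

/-- the size of the value of a form at a place -/
lemma fo_size {K L : Type} [Field K] [NumberField K] [Field L] [NumberField L] [Algebra K L]
    {q : ℕ} (α : Fin q → Fin 2 → K) (m : Fin 2 → K) {M : ℕ} (e : Fin q → ℕ) (he : ∑ i, e i ≤ M)
    {x : Fin 2 → L} (hx : x ≠ 0) (hα : ∀ i, aeval x (ln (α i)) ≠ 0) (hm : aeval x (ln m) ≠ 0)
    {c0 : ℝ} (w : Pl L) (h1 : ∀ i, -c0 ≤ wt w * lam (av w) 1 (bc L (ln (α i))) x)
    (h2 : -c0 ≤ wt w * lam (av w) 1 (bc L (ln m)) x) (θ : L) (hθ : θ ≠ 0) (κ : Fin q) :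
    wt w * Real.log (av w (θ * aeval x (fo α m M e))) ≤
      wt w * Real.log (av w θ) + M * (wt w * Real.log (nrm (av w) x)) -
        e κ * (wt w * lam (av w) 1 (bc L (ln (α κ))) x + c0) + M * c0 := by
  classical
  have hl : ∀ i, Real.log (av w (aeval x (ln (α i)))) =
      Real.log (nrm (av w) x) - lam (av w) 1 (bc L (ln (α i))) x := by
    intro i
    rw [lam_eq _ _ _ hx (by rw [eval_bc]; exact hα i), eval_bc]
    push_cast
    ring
  have hlm : Real.log (av w (aeval x (ln m))) =
      Real.log (nrm (av w) x) - lam (av w) 1 (bc L (ln m)) x := by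
    rw [lam_eq _ _ _ hx (by rw [eval_bc]; exact hm), eval_bc]
    push_cast
    ring
  have hp : ∀ i, av w (aeval x (ln (α i))) ≠ 0 := fun i => ((av w).pos_iff.2 (hα i)).ne'
  have hpm : av w (aeval x (ln m)) ≠ 0 := ((av w).pos_iff.2 hm).ne'
  have h3 : Real.log (av w (θ * aeval x (fo α m M e))) = Real.log (av w θ) +
      (∑ i, (e i : ℝ) * (Real.log (nrm (av w) x) - lam (av w) 1 (bc L (ln (α i))) x) +
        ((M - ∑ i, e i : ℕ) : ℝ) * (Real.log (nrm (av w) x) - lam (av w) 1 (bc L (ln m)) x)) := by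
    have hval : av w (θ * aeval x (fo α m M e)) = av w θ *
        ((∏ i, av w (aeval x (ln (α i))) ^ e i) * av w (aeval x (ln m)) ^ (M - ∑ i, e i)) := by
      unfold fo
      simp only [map_mul, map_prod, map_pow]
    have hprod : ∏ i, av w (aeval x (ln (α i))) ^ e i ≠ 0 :=
      Finset.prod_ne_zero_iff.2 fun i _ => pow_ne_zero _ (hp i)
    rw [hval, Real.log_mul ((av w).pos_iff.2 hθ).ne' (mul_ne_zero hprod (pow_ne_zero _ hpm)),
      Real.log_mul hprod (pow_ne_zero _ hpm), Real.log_pow, hlm,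
      Real.log_prod fun i _ => pow_ne_zero _ (hp i)]
    congr 2
    refine Finset.sum_congr rfl fun i _ => ?_
    rw [Real.log_pow, hl]
  have h4 : ((M - ∑ i, e i : ℕ) : ℝ) = M - ∑ i, (e i : ℝ) := by
    rw [Nat.cast_sub he]
    push_cast
    rfl
  set ν := Real.log (nrm (av w) x) with hν
  set l : Fin q → ℝ := fun i => lam (av w) 1 (bc L (ln (α i))) x with hl'
  set lm : ℝ := lam (av w) 1 (bc L (ln m)) x with hlm'
  have h5 : wt w * Real.log (av w (θ * aeval x (fo α m M e))) =
      wt w * Real.log (av w θ) + M * (wt w * ν) - ∑ i, (e i : ℝ) * (wt w * l i) -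
        (M - ∑ i, (e i : ℝ)) * (wt w * lm) := by
    rw [h3, h4]
    have h6 : ∑ i, (e i : ℝ) * (ν - l i) = (∑ i, (e i : ℝ)) * ν - ∑ i, (e i : ℝ) * l i := by
      rw [Finset.sum_mul, ← Finset.sum_sub_distrib]
      exact Finset.sum_congr rfl fun i _ => by ring
    have h7 : ∑ i, (e i : ℝ) * (wt w * l i) = wt w * ∑ i, (e i : ℝ) * l i := by
      rw [Finset.mul_sum]
      exact Finset.sum_congr rfl fun i _ => by ring
    rw [h7]
    show wt w * (Real.log (av w θ) + (∑ i, (e i : ℝ) * (ν - l i) + (M - ∑ i, (e i : ℝ)) *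
      (ν - lm))) = _
    rw [h6]
    ring
  rw [h5]
  have h8 : (e κ : ℝ) * (wt w * l κ + c0) - (∑ i, (e i : ℝ)) * c0 ≤
      ∑ i, (e i : ℝ) * (wt w * l i) := by
    have h9 : (e κ : ℝ) * (wt w * l κ + c0) ≤ ∑ i, (e i : ℝ) * (wt w * l i + c0) := by
      refine Finset.single_le_sum (f := fun i => (e i : ℝ) * (wt w * l i + c0)) (fun i _ => ?_)
        (Finset.mem_univ κ)
      have := h1 i
      exact mul_nonneg (Nat.cast_nonneg _) (by simp only [hl']; linarith)
    have h10 : ∑ i, (e i : ℝ) * (wt w * l i + c0) = ∑ i, (e i : ℝ) * (wt w * l i) +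
        (∑ i, (e i : ℝ)) * c0 := by
      rw [Finset.sum_mul, ← Finset.sum_add_distrib]
      exact Finset.sum_congr rfl fun i _ => by ring
    linarith
  have h11 : 0 ≤ (M - ∑ i, (e i : ℝ)) * (wt w * lm + c0) := by
    refine mul_nonneg ?_ (by linarith)
    rw [← h4]
    exact Nat.cast_nonneg _
  have h12 : (M - ∑ i, (e i : ℝ)) * (wt w * lm + c0) = (M - ∑ i, (e i : ℝ)) * (wt w * lm) +
    M * c0 - (∑ i, (e i : ℝ)) * c0 := by ring
  show _ ≤ wt w * Real.log (av w θ) + M * (wt w * ν) - e κ * (wt w * l κ + c0) + M * c0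
  linarith

/-- the size of the value of a monomial at a place -/
lemma mo_size {K L : Type} [Field K] [NumberField K] [Field L] [NumberField L] [Algebra K L]
    {M : ℕ} (j : Fin (M + 1)) {x : Fin 2 → L} (hx : x ≠ 0) (w : Pl L) (θ : L) (hθ : θ ≠ 0)
    (hj : aeval x (monomial (mo M j) 1 : MvPolynomial (Fin 2) K) ≠ 0) :
    wt w * Real.log (av w (θ * aeval x (monomial (mo M j) 1 : MvPolynomial (Fin 2) K))) ≤
      wt w * Real.log (av w θ) + M * (wt w * Real.log (nrm (av w) x)) := by
  have h1 := rho_mono_le (K := K) (av w) hx (mo M j)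
  rw [mo_degree (by have := j.2; omega)] at h1
  have h2 := rho_pos (av w) M (monomial (mo M j) 1 : MvPolynomial (Fin 2) K) hx hj
  have h3 := Real.log_le_log h2 h1
  rw [Real.log_one] at h3
  unfold rho at h3
  rw [Real.log_div ((av w).pos_iff.2 hj).ne' (pow_pos (nrm_pos _ hx) _).ne', Real.log_pow] at h3
  rw [map_mul, Real.log_mul ((av w).pos_iff.2 hθ).ne' ((av w).pos_iff.2 hj).ne']
  have h4 := mul_le_mul_of_nonneg_left h3 (wt_nonneg w)
  rw [mul_zero, mul_sub] at h4
  have h5 : wt w * (M * Real.log (nrm (av w) x)) = M * (wt w * Real.log (nrm (av w) x)) := by ring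
  rw [mul_add]
  linarith

theorem place {K : Type} [Field K] [NumberField K] {q : ℕ} (hq : 0 < q) (α : Fin q → Fin 2 → K)
    (m : Fin 2 → K) (hm : ∀ i, m 0 * α i 1 - m 1 * α i 0 ≠ 0) (v : Pl K) (r M M' : ℕ) (c0 : ℝ)
    (hc0 : 0 ≤ c0) :
    ∃ C : ℝ, 0 ≤ C ∧ ∀ (L : Type) [Field L] [NumberField L] [Algebra K L],
      finrank K L ≤ r → ∀ x : Fin 2 → L, x ≠ 0 → (∀ i, aeval x (ln (α i)) ≠ 0) →
      aeval x (ln m) ≠ 0 → ∀ κ : Pl L → Fin q,
      (∀ w i, -c0 ≤ wt w * lam (av w) 1 (bc L (ln (α i))) x) →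
      (∀ w, -c0 ≤ wt w * lam (av w) 1 (bc L (ln m)) x) → ∀ (θ : L) (b : ℝ), θ ≠ 0 →
      (∀ w ∈ ab L v, wt w * Real.log (av w θ) + M * (wt w * Real.log (nrm (av w) x)) ≤
        nn v w * (b + M' * tt α x c0 κ v w)) →
      (∀ j : Fin (M + 1), aeval x (monomial (mo M j) 1 : MvPolynomial (Fin 2) K) ≠ 0 →
        Algebra.trace K L (θ * aeval x (monomial (mo M j) 1 : MvPolynomial (Fin 2) K)) ≠ 0 →
        wt v * Real.log (av v (Algebra.trace K L (θ * aeval x
          (monomial (mo M j) 1 : MvPolynomial (Fin 2) K)))) ≤ b + M' * BB α x c0 κ v + C) ∧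
      ((∀ e : Ex q M, Algebra.trace K L (θ * aeval x (fo α m M fun i => (e.1 i : ℕ))) ≠ 0) →
        ∃ β : Fin (M + 1) → Ex q M,
          LinearIndependent K (fun s => co M (fo α m M fun i => ((β s).1 i : ℕ))) ∧
          ∑ s, wt v * Real.log (av v (Algebra.trace K L (θ * aeval x
            (fo α m M fun i => ((β s).1 i : ℕ))))) ≤
            (M + 1) * (b + C) + ((M' : ℝ) ^ 2 * QQ α x c0 κ v + M' * BB α x c0 κ v) / 2) := by
  classical
  obtain ⟨c, hc, htr⟩ := trace_pl v r
  refine ⟨M * c0 + c, by positivity, ?_⟩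
  intro L _ _ _ hr x hx hαx hmx κ hlow hlowm θ b hθ hθb
  have hD0 := De_nonneg α x c0 κ hlow
  refine ⟨fun j hj hjt => ?_, fun htre => ?_⟩
  · have h1 := htr L hr (θ * aeval x (monomial (mo M j) 1 : MvPolynomial (Fin 2) K))
      (b + M' * BB α x c0 κ v) (fun w hw => by
        refine (mo_size j hx w θ hθ hj).trans ((hθb w hw).trans ?_)
        refine mul_le_mul_of_nonneg_left ?_ (nn_nonneg _ _)
        have := mul_le_mul_of_nonneg_left (tt_le α x c0 κ hlow v w) (Nat.cast_nonneg (α := ℝ) M')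
        linarith) hjt
    have : 0 ≤ (M : ℝ) * c0 := by positivity
    linarith
  · -- the natural local degrees
    have hn : ∀ w : Pl L, ∃ n : ℕ, w ∈ ab L v → nn v w = n := by
      intro w
      by_cases h : w ∈ ab L v
      · obtain ⟨n, hn⟩ := nn_nat (mem_ab.1 h)
        exact ⟨n, fun _ => hn⟩
      · exact ⟨0, fun h' => absurd h' h⟩
    choose n hn using hn
    obtain ⟨i, e, g, he0, hes, hg0, hg1, hg2⟩ := chain_place hq (ab L v) n κ
      (fun w => De α x c0 κ v w) (fun w _ => hD0 v w) M'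
    obtain ⟨hsum, hind⟩ := chain_indep α m hm M i e he0 hes
    have hle : ∀ s a, e s a ≤ s := fun s a => by
      have := Finset.single_le_sum (f := e s) (fun _ _ => Nat.zero_le _) (Finset.mem_univ a)
      rw [hsum] at this
      exact this
    let β : Fin (M + 1) → Ex q M := fun s => ⟨fun a => ⟨e s a, by
      have := hle s a
      have := s.2
      omega⟩, by
        show ∑ a, e s a ≤ M
        rw [hsum]
        have := s.2
        omega⟩
    have hβ : ∀ s : Fin (M + 1), (fun a => (((β s).1 a : Fin (M + 1)) : ℕ)) = e s := fun s => rfl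
    refine ⟨β, ?_, ?_⟩
    · simp only [hβ]
      exact co_indep _ (fun s => fo_hom α m M (e s) (by
        rw [hsum]
        have := s.2
        omega)) hind
    · have h1 : ∀ s : Fin (M + 1), wt v * Real.log (av v (Algebra.trace K L (θ * aeval x
            (fo α m M fun i => ((β s).1 i : ℕ))))) ≤ (b + (M * c0 + c)) + g s := by
        intro s
        have h2 := htr L hr (θ * aeval x (fo α m M fun i => ((β s).1 i : ℕ)))
          (b + g s + M * c0) (fun w hw => by
            have h3 := fo_size α m (M := M) (e s) (by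
              rw [hsum]
              have := s.2
              omega) hx hαx hmx w (hlow w) (hlowm w) θ hθ (κ w)
            rw [hβ]
            refine h3.trans ?_
            have h4 := hθb w hw
            have h5 := hg1 s w hw
            have hnn := one_le_nn (mem_ab.1 hw)
            have h6 : wt w * lam (av w) 1 (bc L (ln (α (κ w)))) x + c0 =
                nn v w * De α x c0 κ v w := by
              unfold De
              rw [mul_div_cancel₀]
              linarith
            have h7 : tt α x c0 κ v w = ∑ w' ∈ ab L v, (if κ w' = κ w then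
              (n w' : ℝ) * min (De α x c0 κ v w') (De α x c0 κ v w) else 0) := by
              refine Finset.sum_congr rfl fun w' hw' => ?_
              rw [hn w' hw']
            rw [← h7] at h5
            rw [h6]
            have h8 : M * c0 ≤ nn v w * (M * c0) := le_mul_of_one_le_left (by positivity) hnn
            have h9 := mul_le_mul_of_nonneg_left h5 (nn_nonneg v w)
            have h10 : nn v w * (b + g s + M * c0) = nn v w * (b + M' * tt α x c0 κ v w) -
              (e s (κ w) : ℝ) * (nn v w * De α x c0 κ v w) + nn v w * (M * c0) +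
              (nn v w * g s - nn v w * (M' * tt α x c0 κ v w -
                (e s (κ w) : ℝ) * De α x c0 κ v w)) := by ring
            rw [h10]
            linarith) (htre (β s))
        linarith
      refine (Finset.sum_le_sum fun s _ => h1 s).trans ?_
      rw [Finset.sum_add_distrib, Finset.sum_const, Finset.card_univ, Fintype.card_fin,
        nsmul_eq_mul, Fin.sum_univ_eq_sum_range (fun s => g s) (M + 1)]
      refine add_le_add (le_of_eq (by push_cast; ring)) ((hg2 (M + 1)).trans (le_of_eq ?_))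
      congr 2
      · congr 1
        unfold QQ tt
        refine Finset.sum_congr rfl fun w hw => ?_
        rw [Finset.mul_sum]
        refine Finset.sum_congr rfl fun w' hw' => ?_
        rw [hn w hw, hn w' hw']
        split_ifs
        · ring
        · ring
      · congr 1
        unfold BB
        exact Finset.sum_congr rfl fun w hw => by rw [hn w hw]

end Pool.Agent.H85.V
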