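import Pool.Agent.H85.V.Glob

/-!
The inequality for the points of degree at most `r` on the line.
-/

set_option autoImplicit false

namespace Pool.Agent.H85.V

open MvPolynomial Finset NumberField IsDedekindDomain Height Module
open Pool.Agent.W180.OP Pool.Agent.W180.TP Pool.Agent.TH875 Pool.Agent.NH28

/-- two different points are not both near -/
theorem far {K : Type} [Field K] [NumberField K] (a b : Fin 2 → K)
    (hab : a 0 * b 1 - a 1 * b 0 ≠ 0) :
    ∃ C : ℝ, 0 ≤ C ∧ ∀ (L : Type) [Field L] [NumberField L] [Algebra K L] (p : Pl L)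
      (x : Fin 2 → L), x ≠ 0 → aeval x (ln a) ≠ 0 → aeval x (ln b) ≠ 0 →
        wt p * lam (av p) 1 (bc L (ln a)) x ≤ C * Module.finrank ℚ L ∨
        wt p * lam (av p) 1 (bc L (ln b)) x ≤ C * Module.finrank ℚ L := by
  obtain ⟨C, hC0, hC⟩ := not_all (K := K) (n := 2) (m := 0) (r := 2) (D := 1) (by norm_num)
    (fun _ => 0) (fun _ => 0) (fun k => k.elim0) ![ln a, ln b] (by
      intro k
      fin_cases k
      · exact ln_hom a
      · exact ln_hom b) (by
      intro L _ _ x _ hx
      have h1 := hx 0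
      have h2 := hx 1
      simp only [Matrix.cons_val_zero, Matrix.cons_val_one, aeval_ln] at h1 h2
      have hdet : algebraMap K L (a 0 * b 1 - a 1 * b 0) ≠ 0 :=
        (map_ne_zero_iff _ (algebraMap K L).injective).2 hab
      rw [map_sub, map_mul, map_mul] at hdet
      set A0 := algebraMap K L (a 0)
      set A1 := algebraMap K L (a 1)
      set B0 := algebraMap K L (b 0)
      set B1 := algebraMap K L (b 1)
      have e0 : (A0 * B1 - A1 * B0) * x 0 = 0 := by linear_combination B0 * h1 - A0 * h2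
      have e1 : (A0 * B1 - A1 * B0) * x 1 = 0 := by linear_combination B1 * h1 - A1 * h2
      funext j
      fin_cases j
      · exact (mul_eq_zero.1 e0).resolve_left hdet
      · exact (mul_eq_zero.1 e1).resolve_left hdet)
  refine ⟨C, hC0, fun L _ _ _ p x hx ha hb => ?_⟩
  obtain ⟨k, hk⟩ := hC L p x hx (fun k => k.elim0) (by
    intro k
    fin_cases k
    · exact ha
    · exact hb)
  fin_cases k
  · exact Or.inl hk
  · exact Or.inr hk

/-- points of exact degree `r` -/
theorem main_eq {K : Type} [Field K] [NumberField K] {q : ℕ} (hq : 0 < q) (α : Fin q → Fin 2 → K)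
    (hα0 : ∀ i, α i ≠ 0) (hα : ∀ i j, i ≠ j → α i 0 * α j 1 - α i 1 * α j 0 ≠ 0) (r : ℕ)
    (hr : 1 ≤ r) (ε : ℝ) (hε : 0 < ε) :
    ∃ Z : MvPolynomial (Fin 2) K, Z ≠ 0 ∧ (∃ t, Z.IsHomogeneous t) ∧ ∀ S : Finset (Pl K),
      (∀ v : InfinitePlace K, Sum.inl v ∈ S) →
      ∃ C : ℝ, 0 ≤ C ∧ ∀ (L : Type) [Field L] [NumberField L] [Algebra K L],
        finrank K L = r → ∀ x : Fin 2 → L, x ≠ 0 →
        IntermediateField.adjoin K {z | ∃ i j, z = x i / x j} = ⊤ →
        (∀ i, aeval x (ln (α i)) ≠ 0) → aeval x Z ≠ 0 →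
        ∑ v ∈ S, ∑ w ∈ ab L v, ∑ w' ∈ ab L v, nn v w * nn v w' * ∑ i,
          min (wt w * lam (av w) 1 (bc L (ln (α i))) x / nn v w)
            (wt w' * lam (av w') 1 (bc L (ln (α i))) x / nn v w') ≤
          (2 * r + ε) * logHeight x + C := by
  classical
  obtain ⟨C1, hC1⟩ := exists_theta K 2 r
  have hC1' : ThetaP K 2 r C1 := hC1
  have hC10 := hC1.1
  obtain ⟨m, hm⟩ := exists_aux α hα0
  -- the parameter
  obtain ⟨M', hM'⟩ := exists_nat_ge ((4 + 4 * C1 + q) / ε)
  have hM'0 : 0 < (4 + 4 * C1 + q) / ε := by positivity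
  have hM'1 : 1 ≤ M' := by
    rcases Nat.eq_zero_or_pos M' with h | h
    · rw [h, Nat.cast_zero] at hM'
      linarith
    · exact h
  have hM'R : (0 : ℝ) < M' := by linarith
  have hεM : (4 + 4 * C1 + q) / M' ≤ ε := by
    rw [div_le_iff₀ hM'R]
    rw [div_le_iff₀ hε] at hM'
    linarith
  obtain ⟨Z, hZ0, hZh, hZ⟩ := glob hq α m hm r M' hr hM'1 C1 hC1'
  refine ⟨Z, hZ0, hZh, fun S hS => ?_⟩
  obtain ⟨C, c0, hC0, hc00, hmain⟩ := hZ S hS
  have hfar : ∀ i j : Fin q, ∃ c : ℝ, 0 ≤ c ∧ (i ≠ j → ∀ (L : Type) [Field L] [NumberField L]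
      [Algebra K L] (p : Pl L) (x : Fin 2 → L), x ≠ 0 → aeval x (ln (α i)) ≠ 0 →
        aeval x (ln (α j)) ≠ 0 →
        wt p * lam (av p) 1 (bc L (ln (α i))) x ≤ c * Module.finrank ℚ L ∨
        wt p * lam (av p) 1 (bc L (ln (α j))) x ≤ c * Module.finrank ℚ L) := by
    intro i j
    by_cases h : i = j
    · exact ⟨0, le_rfl, fun h' => absurd h h'⟩
    · obtain ⟨c, hc, hcc⟩ := far (α i) (α j) (hα i j h)
      exact ⟨c, hc, fun _ => hcc⟩
  choose cf hcf0 hcf using hfar
  have hcfs : 0 ≤ ∑ i, ∑ j, cf i j := Finset.sum_nonneg fun i _ => Finset.sum_nonneg fun j _ =>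
    hcf0 i j
  set Q : ℝ := (finrank ℚ K : ℝ) * r with hQ
  have hQ0 : 0 ≤ Q := by positivity
  set c1 : ℝ := (∑ i, ∑ j, cf i j) * Q with hc1
  have hc10 : 0 ≤ c1 := mul_nonneg hcfs hQ0
  refine ⟨C + S.card * ((r : ℝ) * r * (q * c1)), by positivity, ?_⟩
  intro L _ _ _ hrL x hx hadj hαx hZx
  have hfq : (finrank ℚ L : ℝ) = Q := by
    have h1 : finrank ℚ K * finrank K L = finrank ℚ L := finrank_mul_finrank ℚ K L
    rw [hQ, ← h1, hrL]
    push_cast
    ring
  obtain ⟨hlow, hκ⟩ := hmain L hrL x hx hadj hαx hZx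
  have hmax : ∀ w : Pl L, ∃ k : Fin q, ∀ i, wt w * lam (av w) 1 (bc L (ln (α i))) x ≤
      wt w * lam (av w) 1 (bc L (ln (α k))) x := by
    intro w
    have : Nonempty (Fin q) := ⟨⟨0, hq⟩⟩
    exact Finite.exists_max fun i => wt w * lam (av w) 1 (bc L (ln (α i))) x
  choose κ hκmax using hmax
  have hsmall : ∀ (w : Pl L) (i : Fin q), i ≠ κ w →
      wt w * lam (av w) 1 (bc L (ln (α i))) x ≤ c1 := by
    intro w i hi
    have h1 : cf i (κ w) * finrank ℚ L ≤ c1 := by
      rw [hfq, hc1]
      refine mul_le_mul_of_nonneg_right ?_ hQ0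
      refine le_trans ?_ (Finset.single_le_sum (f := fun i => ∑ j, cf i j)
        (fun i _ => Finset.sum_nonneg fun j _ => hcf0 i j) (Finset.mem_univ i))
      exact Finset.single_le_sum (f := fun j => cf i j) (fun j _ => hcf0 i j)
        (Finset.mem_univ (κ w))
    rcases hcf i (κ w) hi L w x hx (hαx i) (hαx _) with h | h
    · exact h.trans h1
    · exact (hκmax w i).trans (h.trans h1)
  have hterm : ∀ v ∈ S, ∑ w ∈ ab L v, ∑ w' ∈ ab L v, nn v w * nn v w' * ∑ i,
          min (wt w * lam (av w) 1 (bc L (ln (α i))) x / nn v w)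
            (wt w' * lam (av w') 1 (bc L (ln (α i))) x / nn v w') ≤
        QQ α x c0 κ v + (r : ℝ) * r * (q * c1) := by
    intro v _
    have h1 : ∀ w ∈ ab L v, ∀ w' ∈ ab L v, ∑ i,
          min (wt w * lam (av w) 1 (bc L (ln (α i))) x / nn v w)
            (wt w' * lam (av w') 1 (bc L (ln (α i))) x / nn v w') ≤
        (if κ w' = κ w then min (De α x c0 κ v w') (De α x c0 κ v w) else 0) + q * c1 := by
      intro w hw w' hw'
      have hnw := one_le_nn (mem_ab.1 hw)
      have hnw' := one_le_nn (mem_ab.1 hw')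
      have h2 : ∀ u ∈ ab L v, ∀ i, i ≠ κ u →
          wt u * lam (av u) 1 (bc L (ln (α i))) x / nn v u ≤ c1 := by
        intro u hu i hi
        have hnu := one_le_nn (mem_ab.1 hu)
        rw [div_le_iff₀ (by linarith)]
        exact (hsmall u i hi).trans (le_mul_of_one_le_right hc10 hnu)
      have h3 : ∀ u ∈ ab L v, wt u * lam (av u) 1 (bc L (ln (α (κ u)))) x / nn v u ≤
          De α x c0 κ v u := by
        intro u hu
        have hnu := one_le_nn (mem_ab.1 hu)
        unfold De
        exact div_le_div_of_nonneg_right (by linarith) (by linarith)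
      have h4 : ∀ i, min (wt w * lam (av w) 1 (bc L (ln (α i))) x / nn v w)
            (wt w' * lam (av w') 1 (bc L (ln (α i))) x / nn v w') ≤
          (if i = κ w then (if κ w' = κ w then
            min (De α x c0 κ v w') (De α x c0 κ v w) else 0) else 0) + c1 := by
        intro i
        by_cases hi : i = κ w
        · rw [if_pos hi]
          by_cases hi' : κ w' = κ w
          · rw [if_pos hi']
            have h5 := h3 w hw
            have h6 := h3 w' hw'
            rw [hi'] at h6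
            rw [hi]
            refine le_trans (le_min ?_ ?_) (le_add_of_nonneg_right hc10)
            · exact (min_le_right _ _).trans h6
            · exact (min_le_left _ _).trans h5
          · rw [if_neg hi', zero_add]
            refine (min_le_right _ _).trans (h2 w' hw' i ?_)
            rw [hi]
            exact fun h => hi' h.symm
        · rw [if_neg hi, zero_add]
          exact (min_le_left _ _).trans (h2 w hw i hi)
      refine (Finset.sum_le_sum fun i _ => h4 i).trans (le_of_eq ?_)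
      rw [Finset.sum_add_distrib, Finset.sum_ite_eq', if_pos (Finset.mem_univ _),
        Finset.sum_const, Finset.card_univ, Fintype.card_fin, nsmul_eq_mul]
    have h2 : ∑ w ∈ ab L v, ∑ w' ∈ ab L v, nn v w * nn v w' * ∑ i,
          min (wt w * lam (av w) 1 (bc L (ln (α i))) x / nn v w)
            (wt w' * lam (av w') 1 (bc L (ln (α i))) x / nn v w') ≤
        ∑ w ∈ ab L v, ∑ w' ∈ ab L v, nn v w * nn v w' *
          ((if κ w' = κ w then min (De α x c0 κ v w') (De α x c0 κ v w) else 0) + q * c1) :=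
      Finset.sum_le_sum fun w hw => Finset.sum_le_sum fun w' hw' =>
        mul_le_mul_of_nonneg_left (h1 w hw w' hw') (mul_nonneg (nn_nonneg _ _) (nn_nonneg _ _))
    refine h2.trans (le_of_eq ?_)
    have h3 := sum_nn L v
    rw [hrL] at h3
    have h4 : ∑ w ∈ ab L v, ∑ w' ∈ ab L v, nn v w * nn v w' *
          ((if κ w' = κ w then min (De α x c0 κ v w') (De α x c0 κ v w) else 0) + q * c1) =
        ∑ w ∈ ab L v, nn v w * (tt α x c0 κ v w + r * (q * c1)) := by
      refine Finset.sum_congr rfl fun w _ => ?_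
      unfold tt
      rw [← h3, Finset.sum_mul, ← Finset.sum_add_distrib, Finset.mul_sum]
      refine Finset.sum_congr rfl fun w' _ => ?_
      split_ifs <;> ring
    rw [h4]
    simp only [mul_add]
    rw [Finset.sum_add_distrib, ← Finset.sum_mul, h3]
    unfold QQ
    ring
  refine (Finset.sum_le_sum hterm).trans ?_
  rw [Finset.sum_add_distrib, Finset.sum_const, nsmul_eq_mul]
  have h1 := hκ κ
  have h2 : (2 * r + (4 + 4 * C1 + q) / M') * logHeight x ≤ (2 * r + ε) * logHeight x :=
    mul_le_mul_of_nonneg_right (by linarith) (logHeight_nonneg x)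
  linarith

end Pool.Agent.H85.V
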