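import Pool.Agent.H85.V.Main

/-!
The zeros of a binary form have bounded height.
-/

set_option autoImplicit false

namespace Pool.Agent.H85.V

open MvPolynomial Finset NumberField IsDedekindDomain Height Module
open Pool.Agent.W180.OP Pool.Agent.W180.TP Pool.Agent.TH875 Pool.Agent.NH28

variable {K : Type} [Field K] [NumberField K]

/-- the height of the values of two forms -/
theorem two_le {n e : ℕ} (G : Fin 2 → MvPolynomial (Fin n) K) (hG : ∀ i, (G i).IsHomogeneous e) :
    ∃ C : ℝ, 0 ≤ C ∧ ∀ (L : Type) [Field L] [NumberField L] [Algebra K L] (x : Fin n → L),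
      x ≠ 0 → logHeight (fun i => aeval x (G i)) ≤ e * logHeight x + C * finrank ℚ L := by
  classical
  choose c hc using fun i => form_seg (G i) (hG i)
  set r := Fintype.card (Fin e → Fin n) with hr
  set E : (Fin e → Fin n) ≃ Fin r := Fintype.equivFin (Fin e → Fin n) with hE
  obtain ⟨C, hC0, hC⟩ := lin_le (fun (i : Fin 2) (k : Fin r) => c i (E.symm k))
  refine ⟨C, hC0, fun L _ _ _ x hx => ?_⟩
  set v : (Fin e → Fin n) → L := fun j => ∏ k, x (j k) with hv
  have hvh : logHeight v = e * logHeight x := by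
    have := logHeight_fun_prod_eq (K := L) (α := Fin e) (ι := fun _ => Fin n) (x := fun _ => x)
      (fun _ => hx)
    rw [Finset.sum_const, Finset.card_univ, Fintype.card_fin, nsmul_eq_mul] at this
    exact this
  have hGv : ∀ i, aeval x (G i) = ∑ j, algebraMap K L (c i j) * v j := by
    intro i
    conv_lhs => rw [hc]
    simp [hv]
  set v' : Fin r → L := fun k => v (E.symm k) with hv'
  have hv'h : logHeight v' = e * logHeight x := by
    rw [← hvh]
    exact logHeight_comp_equiv E.symm v
  have h3 := hC L v'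
  have h4 : (fun i => aeval x (G i)) =
      fun i => ∑ k, algebraMap K L (c i (E.symm k)) * v' k := by
    funext i
    rw [hGv]
    exact (Equiv.sum_comp E.symm (fun j => algebraMap K L (c i j) * v j)).symm
  rw [h4]
  rw [hv'h] at h3
  exact h3

/-- the zeros of a polynomial have bounded height -/
theorem root_poly (f : Polynomial K) (hf : f ≠ 0) :
    ∃ C : ℝ, 0 ≤ C ∧ ∀ (L : Type) [Field L] [NumberField L] [Algebra K L] (y : L),
      Polynomial.aeval y f = 0 → logHeight₁ y ≤ C * finrank ℚ L := by
  classical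
  set n := f.natDegree with hn
  rcases Nat.eq_zero_or_pos n with h0 | h0
  · refine ⟨0, le_rfl, fun L _ _ _ y hy => ?_⟩
    exfalso
    rw [Polynomial.eq_C_of_natDegree_eq_zero h0, Polynomial.aeval_C] at hy
    rw [map_eq_zero] at hy
    apply hf
    rw [Polynomial.eq_C_of_natDegree_eq_zero h0, hy, map_zero]
  have hlead : f.coeff n ≠ 0 := Polynomial.leadingCoeff_ne_zero.2 hf
  set G0 : MvPolynomial (Fin 2) K := ∑ j ∈ range n, C (-f.coeff j) * (X 0 ^ j * X 1 ^ (n - 1 - j))
    with hG0
  set G1 : MvPolynomial (Fin 2) K := C (f.coeff n) * X 1 ^ (n - 1) with hG1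
  have hG0h : G0.IsHomogeneous (n - 1) := by
    refine IsHomogeneous.sum _ _ _ fun j hj => ?_
    have hj' := Finset.mem_range.1 hj
    have h1 := (isHomogeneous_C (Fin 2) (-f.coeff j)).mul
      (((isHomogeneous_X K (0 : Fin 2)).pow j).mul ((isHomogeneous_X K (1 : Fin 2)).pow (n - 1 - j)))
    have h2 : 0 + (1 * j + 1 * (n - 1 - j)) = n - 1 := by omega
    rw [h2] at h1
    exact h1
  have hG1h : G1.IsHomogeneous (n - 1) := by
    have h1 := (isHomogeneous_C (Fin 2) (f.coeff n)).mul ((isHomogeneous_X K (1 : Fin 2)).pow (n - 1))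
    have h2 : 0 + 1 * (n - 1) = n - 1 := by omega
    rw [h2] at h1
    exact h1
  obtain ⟨C, hC0, hC⟩ := two_le ![G0, G1] (by
    intro i
    fin_cases i
    · exact hG0h
    · exact hG1h)
  refine ⟨C, hC0, fun L _ _ _ y hy => ?_⟩
  have hx : (![y, 1] : Fin 2 → L) ≠ 0 := fun h => one_ne_zero (congrFun h 1)
  have h1 := hC L ![y, 1] hx
  have hc : algebraMap K L (f.coeff n) ≠ 0 := by
    rw [Ne, map_eq_zero]
    exact hlead
  have e0 : aeval ![y, 1] G0 = algebraMap K L (f.coeff n) * y ^ n := by
    rw [hG0, map_sum]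
    have h2 : Polynomial.aeval y f = ∑ j ∈ range n, algebraMap K L (f.coeff j) * y ^ j +
        algebraMap K L (f.coeff n) * y ^ n := by
      rw [Polynomial.aeval_eq_sum_range, Finset.sum_range_succ]
      simp only [Algebra.smul_def]
      rfl
    rw [hy] at h2
    have h3 : ∑ j ∈ range n, aeval ![y, 1] (MvPolynomial.C (-f.coeff j) *
        (X 0 ^ j * X 1 ^ (n - 1 - j)) : MvPolynomial (Fin 2) K) =
        -∑ j ∈ range n, algebraMap K L (f.coeff j) * y ^ j := by
      rw [← Finset.sum_neg_distrib]
      refine Finset.sum_congr rfl fun j _ => ?_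
      simp
    rw [h3]
    linear_combination h2
  have e1 : aeval ![y, 1] G1 = algebraMap K L (f.coeff n) := by
    rw [hG1]
    simp
  have e2 : (fun i => aeval ![y, 1] (![G0, G1] i : MvPolynomial (Fin 2) K)) =
      algebraMap K L (f.coeff n) • ![y ^ n, 1] := by
    funext i
    fin_cases i
    · simpa using e0
    · simpa using e1
  rw [e2, logHeight_smul_eq_logHeight _ hc, ← logHeight₁_eq_logHeight, ← logHeight₁_eq_logHeight,
    logHeight₁_pow] at h1
  have h2 : ((n - 1 : ℕ) : ℝ) = n - 1 := by
    rw [Nat.cast_sub h0]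
    simp
  rw [h2] at h1
  linarith

/-- **the zeros of a binary form have bounded height** -/
theorem root_ht {t : ℕ} (Z : MvPolynomial (Fin 2) K) (hZ : Z ≠ 0) (ht : Z.IsHomogeneous t) :
    ∃ C : ℝ, 0 ≤ C ∧ ∀ (L : Type) [Field L] [NumberField L] [Algebra K L] (x : Fin 2 → L),
      x ≠ 0 → aeval x Z = 0 → logHeight x ≤ C * finrank ℚ L := by
  classical
  set f : Polynomial K := ∑ j : Fin (t + 1), Polynomial.C (Z.coeff (mo t j)) * Polynomial.X ^ (j : ℕ)
    with hf
  have hf0 : f ≠ 0 := by
    intro h0
    apply hZ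
    rw [form_eq ht]
    refine Finset.sum_eq_zero fun j _ => ?_
    have h1 := congrArg (fun p => Polynomial.coeff p (j : ℕ)) h0
    simp only [hf, Polynomial.finsetSum_coeff, Polynomial.coeff_C_mul, Polynomial.coeff_X_pow,
      Polynomial.coeff_zero] at h1
    rw [Finset.sum_eq_single j] at h1
    · simp only [if_true, mul_one] at h1
      rw [h1, zero_smul]
    · intro i _ hij
      rw [if_neg, mul_zero]
      intro h
      exact hij (Fin.ext h.symm)
    · intro h
      exact absurd (Finset.mem_univ _) h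
  obtain ⟨C, hC0, hC⟩ := root_poly f hf0
  refine ⟨C, hC0, fun L _ _ _ x hx hZx => ?_⟩
  by_cases h1 : x 1 = 0
  · have h0 : x 0 ≠ 0 := by
      intro h0
      apply hx
      funext i
      fin_cases i
      · exact h0
      · exact h1
    have e1 : x = x 0 • ![1, 0] := by
      funext i
      fin_cases i
      · simp
      · simpa using h1
    rw [e1, logHeight_smul_eq_logHeight _ h0, logHeight_swap, ← logHeight₁_eq_logHeight,
      logHeight₁_zero]
    positivity
  · have e1 : x = x 1 • ![x 0 / x 1, 1] := by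
      funext i
      fin_cases i
      · simp only [Fin.zero_eta, Fin.isValue, Pi.smul_apply, Matrix.cons_val_zero, smul_eq_mul]
        field_simp
      · simp
    have h2 : Polynomial.aeval (x 0 / x 1) f = 0 := by
      have h3 : aeval x Z = x 1 ^ t * Polynomial.aeval (x 0 / x 1) f := by
        conv_lhs => rw [form_eq ht]
        rw [map_sum, hf, map_sum, Finset.mul_sum]
        refine Finset.sum_congr rfl fun j _ => ?_
        rw [map_smul, aeval_monomial, map_one, one_mul, Finsupp.prod_fintype _ _ (by simp),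
          Fin.prod_univ_two, mo_zero, mo_one, map_mul, Polynomial.aeval_C, map_pow,
          Polynomial.aeval_X, Algebra.smul_def]
        have hj : (j : ℕ) ≤ t := by have := j.2; omega
        have h4 : x 1 ^ t = x 1 ^ (t - (j : ℕ)) * x 1 ^ (j : ℕ) := by
          rw [← pow_add, Nat.sub_add_cancel hj]
        rw [h4, div_pow]
        have h5 : x 1 ^ (j : ℕ) ≠ 0 := pow_ne_zero _ h1
        field_simp
      rw [hZx] at h3
      exact (mul_eq_zero.1 h3.symm).resolve_left (pow_ne_zero _ h1)
    rw [e1, logHeight_smul_eq_logHeight _ h1, ← logHeight₁_eq_logHeight]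
    exact hC L _ h2

end Pool.Agent.H85.V
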